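import Pool.Agent.X112.SQ.D1

set_option autoImplicit false

noncomputable section

namespace X112.SQ

open Finset

/-- Dirichlet height at scale `s` -/
def Qs (s : ℕ) : ℕ := 4 * 2 ^ ((s + 1) / 2)

/-- `sqrt 2 ^ s` -/
def xs (s : ℕ) : ℝ := Real.sqrt 2 ^ s

theorem xs_pos (s : ℕ) : 0 < xs s := by unfold xs; positivity

theorem xs_sq (s : ℕ) : xs s * xs s = 2 ^ s := by
  unfold xs
  rw [← mul_pow, Real.mul_self_sqrt (by norm_num)]

theorem Qs_ge (s : ℕ) : 4 * xs s ≤ Qs s := by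
  unfold Qs
  push_cast
  have h0 := xs_sq s
  have h1 : (2 : ℝ) ^ s ≤ 2 ^ ((s + 1) / 2) * 2 ^ ((s + 1) / 2) := by
    rw [← pow_add]
    exact pow_le_pow_right₀ (by norm_num) (by omega)
  have h2 : xs s ≤ 2 ^ ((s + 1) / 2) := by
    by_contra h
    push Not at h
    have : (0 : ℝ) < 2 ^ ((s + 1) / 2) := by positivity
    nlinarith
  linarith

theorem Qs_le (s : ℕ) : (Qs s : ℝ) ≤ 6 * xs s := by
  unfold Qs
  push_cast
  have h0 := xs_sq s
  have hx := xs_pos s
  have h1 : (2 : ℝ) ^ ((s + 1) / 2) * 2 ^ ((s + 1) / 2) ≤ 2 * 2 ^ s := by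
    rw [← pow_add, ← pow_succ']
    exact pow_le_pow_right₀ (by norm_num) (by omega)
  have h2 : 2 ^ ((s + 1) / 2) ≤ 3 / 2 * xs s := by
    by_contra h
    push Not at h
    have : (0 : ℝ) < 2 ^ ((s + 1) / 2) := by positivity
    nlinarith
  linarith

/-- the resonance term -/
def T (θ : ℝ) (s : ℕ) (ρ : ℚ) : ℝ :=
  if ρ.den ^ 2 ≤ 2 ^ s then min (2 ^ s * |θ - ρ|) (2 ^ s * |θ - ρ|)⁻¹ / ρ.den else 0

theorem unit_num (ρ : ℚ) : IsUnit (ρ.num : ZMod ρ.den) := by
  rw [ZMod.coe_int_isUnit_iff_isCoprime, isCoprime_comm, Int.isCoprime_iff_gcd_eq_one]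
  exact ρ.reduced

theorem osc (θ : ℝ) (s : ℕ) (ρ : ℚ) (hρ : |θ - ρ| ≤ 1 / ((Qs s + 1) * ρ.den))
    (hρ2 : ρ.den ≤ Qs s) (n m : ℕ) (hn1 : 2 ^ s ≤ n) (hn2 : n ≤ 2 ^ (s + 2))
    (hm1 : 2 ^ s ≤ m) (hm2 : m ≤ 2 ^ (s + 2)) :
    ‖av θ m - av θ n‖ ≤ 2600 * (xs s)⁻¹ + 128 * ((1 + s : ℝ) ^ 2)⁻¹ + 304 * T θ s ρ := by
  obtain ⟨p, hp⟩ : ∃ p, p = ρ.num := ⟨_, rfl⟩
  obtain ⟨q, hqd⟩ : ∃ q, q = ρ.den := ⟨_, rfl⟩
  have hq : 0 < q := by rw [hqd]; exact ρ.pos
  have hunit : IsUnit (p : ZMod q) := by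
    subst hp hqd
    exact unit_num ρ
  have hρR : (ρ : ℝ) = p / q := by
    rw [hp, hqd]
    exact Rat.cast_def ρ
  have hT : T θ s ρ = if q ^ 2 ≤ 2 ^ s then min (2 ^ s * |θ - p / q|) (2 ^ s * |θ - p / q|)⁻¹ / q
      else 0 := by
    unfold T
    rw [hρR, hqd]
  rw [hρR] at hρ
  rw [← hqd] at hρ hρ2
  rw [hT]
  clear hT
  have hq0 : (0 : ℝ) < q := by exact_mod_cast hq
  have hq1 : (1 : ℝ) ≤ q := by exact_mod_cast hq
  have hx := xs_pos s
  have hx2 := xs_sq s
  have hQ1 := Qs_ge s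
  have hQ2 := Qs_le s
  set x := xs s with hxd
  have hqQ : (q : ℝ) ≤ 6 * x := by
    have : (q : ℝ) ≤ Qs s := by exact_mod_cast hρ2
    linarith
  -- facts for single n
  have fact : ∀ n : ℕ, 2 ^ s ≤ n → n ≤ 2 ^ (s + 2) → ∃ r : ℕ, r * r ≤ n ∧
      n < (r + 1) * (r + 1) ∧ 1 ≤ r ∧ x ≤ r + 1 ∧ (r : ℝ) ≤ 2 * x ∧ (r : ℝ) / n ≤ 2 * x⁻¹ ∧
      (x * x ≤ n) ∧ ((n : ℝ) ≤ 4 * 2 ^ s) ∧ |θ - p / q| * r ≤ 1 / (2 * q) := by
    intro n hn1 hn2
    have a1 : Nat.sqrt n * Nat.sqrt n ≤ n := Nat.sqrt_le n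
    have a2 : n < (Nat.sqrt n + 1) * (Nat.sqrt n + 1) := Nat.lt_succ_sqrt n
    have hn : 1 ≤ n := le_trans Nat.one_le_two_pow hn1
    have a3 : 1 ≤ Nat.sqrt n := by
      by_contra h
      have : Nat.sqrt n = 0 := by omega
      rw [this] at a2
      omega
    set r := Nat.sqrt n
    have b1 : (r : ℝ) * r ≤ n := by exact_mod_cast a1
    have b2 : (n : ℝ) < (r + 1) * (r + 1) := by exact_mod_cast a2
    have b3 : (1 : ℝ) ≤ r := by exact_mod_cast a3
    have b4 : (2 : ℝ) ^ s ≤ n := by exact_mod_cast hn1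
    have b5 : (n : ℝ) ≤ 2 ^ (s + 2) := by exact_mod_cast hn2
    have b6 : (2 : ℝ) ^ (s + 2) = 4 * 2 ^ s := by ring
    have c1 : x ≤ r + 1 := by
      by_contra h
      push Not at h
      nlinarith
    have c2 : (r : ℝ) ≤ 2 * x := by
      by_contra h
      push Not at h
      nlinarith
    have hn0 : (0 : ℝ) < n := by exact_mod_cast hn
    refine ⟨r, a1, a2, a3, c1, c2, ?_, by linarith, by linarith, ?_⟩
    · rw [← div_eq_mul_inv, div_le_div_iff₀ hn0 hx]
      nlinarith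
    · calc |θ - p / q| * r ≤ 1 / ((Qs s + 1) * q) * r := by gcongr
        _ ≤ 1 / (2 * q) := by
          rw [one_div, inv_mul_eq_div, div_le_div_iff₀ (by positivity) (by positivity)]
          nlinarith
  obtain ⟨r, r1, r2, r3, r4, r5, r6, r7, r8, r9⟩ := fact n hn1 hn2
  obtain ⟨t, t1, t2, t3, t4, t5, t6, t7, t8, t9⟩ := fact m hm1 hm2
  have hx0 : 0 < x⁻¹ := by positivity
  have hs0 : (0 : ℝ) < ((1 + s : ℝ) ^ 2)⁻¹ := by positivity
  have hn0 : (0 : ℝ) < n := by nlinarith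
  have hm0 : (0 : ℝ) < m := by nlinarith
  by_cases hgood : q ^ 2 ≤ 2 ^ s
  · rw [if_pos hgood]
    have hqr : q ≤ r := by
      by_contra h
      push Not at h
      nlinarith
    have hqt : q ≤ t := by
      by_contra h
      push Not at h
      nlinarith
    set y := 2 ^ s * |θ - p / q| with hy
    rcases le_or_gt y y⁻¹ with h | h
    · rw [min_eq_left h]
      have a1 := good1 p q hq hunit θ n r r1 r2 r9 hqr
      have a2 := good1 p q hq hunit θ m t t1 t2 t9 hqt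
      have a3 : |H r - H t| ≤ 2 := by
        have b1 := H_diff r t 2 (by
          have : (t : ℝ) ≤ 2 * (r + 1) := by linarith
          exact_mod_cast this)
        have b2 := H_diff t r 2 (by
          have : (r : ℝ) ≤ 2 * (t + 1) := by linarith
          exact_mod_cast this)
        push_cast at b1 b2
        rw [abs_le]
        constructor <;> linarith
      have a4 := F_osc q r t s hq (H_one_le r r3) (H_one_le t t3) (H_lower n r s r3 r2 hn1)
        (H_lower m t s t3 t2 hm1) a3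
      have a5 : ‖((F q t - F q r : ℝ) : ℂ)‖ ≤ 128 * ((1 + s : ℝ) ^ 2)⁻¹ := by
        rw [Complex.norm_real, Real.norm_eq_abs, abs_sub_comm]
        exact a4
      have a6 : av θ m - av θ n = (av θ m - F q t) - (av θ n - F q r) +
          ((F q t - F q r : ℝ) : ℂ) := by
        push_cast
        ring
      rw [a6]
      have a7 := norm_add_le ((av θ m - F q t) - (av θ n - F q r)) ((F q t - F q r : ℝ) : ℂ)
      have a8 := norm_sub_le (av θ m - F q t) (av θ n - F q r)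
      have a9 : 38 * |θ - p / q| * n / q ≤ 152 * (y / q) := by
        rw [← mul_div_assoc]
        refine div_le_div_of_nonneg_right ?_ hq0.le
        rw [hy]
        nlinarith [abs_nonneg (θ - p / q)]
      have a10 : 38 * |θ - p / q| * m / q ≤ 152 * (y / q) := by
        rw [← mul_div_assoc]
        refine div_le_div_of_nonneg_right ?_ hq0.le
        rw [hy]
        nlinarith [abs_nonneg (θ - p / q)]
      linarith
    · rw [min_eq_right h.le]
      have hβ0 : θ - p / q ≠ 0 := by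
        intro h0
        rw [hy, h0] at h
        simp at h
      have hb : 0 < |θ - p / q| := abs_pos.2 hβ0
      have a1 := good2 p q hq hunit θ n r r1 r2 r9 hqr hβ0
      have a2 := good2 p q hq hunit θ m t t1 t2 t9 hqt hβ0
      have a8 := norm_sub_le (av θ m) (av θ n)
      have a9 : 3 * (|θ - p / q| * n)⁻¹ / q ≤ 3 * (y⁻¹ / q) := by
        rw [← mul_div_assoc]
        have : y ≤ |θ - p / q| * n := by
          rw [hy]
          nlinarith
        have hy0 : 0 < y := by positivity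
        gcongr
      have a10 : 3 * (|θ - p / q| * m)⁻¹ / q ≤ 3 * (y⁻¹ / q) := by
        rw [← mul_div_assoc]
        have : y ≤ |θ - p / q| * m := by
          rw [hy]
          nlinarith
        have hy0 : 0 < y := by positivity
        gcongr
      have a11 : 0 ≤ y⁻¹ / q := by positivity
      linarith
  · rw [if_neg hgood]
    push Not at hgood
    have hqx : x < q := by
      have : (2 : ℝ) ^ s < q ^ 2 := by exact_mod_cast hgood
      by_contra h
      push Not at h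
      nlinarith
    have key : ∀ (n r : ℕ), r * r ≤ n → n < (r + 1) * (r + 1) → 1 ≤ r → x ≤ r + 1 →
        (r : ℝ) / n ≤ 2 * x⁻¹ → x * x ≤ n → |θ - p / q| * r ≤ 1 / (2 * q) → (0 : ℝ) < n →
        ‖av θ n‖ ≤ 678 * x⁻¹ := by
      intro n r r1 r2 r3 r4 r6 r7 r9 hn0
      have a0 : H q ≤ 7 * H r := by
        have b1 := H_diff r q 6 (by
          have : (q : ℝ) ≤ 6 * (r + 1) := by linarith
          exact_mod_cast this)
        have b2 := H_one_le r r3
        push_cast at b1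
        linarith
      have a1 := bad1 p q hq hunit θ n r r1 r2 r3 r9 a0
      have a2 : (q : ℝ) / n ≤ 6 * x⁻¹ := by
        rw [← div_eq_mul_inv, div_le_div_iff₀ hn0 hx]
        nlinarith
      have a3 : 6 / (q : ℝ) ≤ 6 * x⁻¹ := by
        rw [← div_eq_mul_inv]
        gcongr
      have a4 : ((r : ℝ) + q) / n = r / n + q / n := by ring
      rw [a4] at a1
      linarith
    have k1 := key n r r1 r2 r3 r4 r6 r7 r9 hn0
    have k2 := key m t t1 t2 t3 t4 t6 t7 t9 hm0
    have := norm_sub_le (av θ m) (av θ n)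
    linarith

/-! ### summation over scales -/

theorem geo (S : ℕ) : (∀ b : ℝ, 1 ≤ b → ∑ s ∈ range S, min (2 ^ s * b) (2 ^ s * b)⁻¹ ≤ 2 / b) ∧
    (∀ b : ℝ, 0 ≤ b → b ≤ 1 → ∑ s ∈ range S, min (2 ^ s * b) (2 ^ s * b)⁻¹ ≤ 4 - b) := by
  induction S with
  | zero =>
    constructor
    · intro b hb
      have : 0 < b := by linarith
      simp
      positivity
    · intro b hb hb'
      simp
      linarith
  | succ S ih =>
    have e : ∀ b : ℝ, ∑ s ∈ range (S + 1), min (2 ^ s * b) (2 ^ s * b)⁻¹ =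
        ∑ s ∈ range S, min (2 ^ s * (2 * b)) (2 ^ s * (2 * b))⁻¹ + min b b⁻¹ := by
      intro b
      rw [Finset.sum_range_succ']
      congr 1
      · refine Finset.sum_congr rfl fun s _ => ?_
        rw [show (2 : ℝ) ^ (s + 1) * b = 2 ^ s * (2 * b) by ring]
      · simp
    constructor
    · intro b hb
      rw [e]
      have h1 := ih.1 (2 * b) (by linarith)
      have h2 : min b b⁻¹ ≤ b⁻¹ := min_le_right _ _
      have h3 : 2 / (2 * b) = b⁻¹ := by field_simp
      have h4 : 2 / b = b⁻¹ + b⁻¹ := by field_simp; norm_num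
      linarith
    · intro b hb hb'
      rw [e]
      have h2 : min b b⁻¹ ≤ b := min_le_left _ _
      rcases le_or_gt (2 * b) 1 with h | h
      · have h1 := ih.2 (2 * b) (by linarith) h
        linarith
      · have h1 := ih.1 (2 * b) h.le
        have h3 : 2 / (2 * b) ≤ 4 - 2 * b := by
          rw [div_le_iff₀ (by linarith)]
          nlinarith
        linarith

theorem geo' (S : ℕ) (b : ℝ) (hb : 0 ≤ b) :
    ∑ s ∈ range S, min (2 ^ s * b) (2 ^ s * b)⁻¹ ≤ 4 := by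
  rcases le_or_gt b 1 with h | h
  · have := (geo S).2 b hb h
    linarith
  · have := (geo S).1 b h.le
    have h2 : 2 / b ≤ 2 := by
      rw [div_le_iff₀ (by linarith)]
      linarith
    linarith

theorem rat_sep (a b : ℚ) (h : a ≠ b) : 1 ≤ |(a : ℝ) - b| * (a.den * b.den) := by
  have ha : (0 : ℝ) < a.den := by exact_mod_cast a.pos
  have hb : (0 : ℝ) < b.den := by exact_mod_cast b.pos
  have h1 : ((a : ℝ) - b) * (a.den * b.den) = ((a.num * b.den - b.num * a.den : ℤ) : ℝ) := by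
    rw [Rat.cast_def a, Rat.cast_def b]
    push_cast
    field_simp
  have h2 : (a.num * b.den - b.num * a.den : ℤ) ≠ 0 := by
    intro h0
    apply h
    have h3 : ((a : ℝ) - b) * (a.den * b.den) = 0 := by rw [h1, h0]; simp
    have h4 : (a : ℝ) - b = 0 := by
      rcases mul_eq_zero.1 h3 with h5 | h5
      · exact h5
      · exact absurd h5 (by positivity)
    have h5 : (a : ℝ) = b := by linarith
    exact_mod_cast h5
  have h3 : |(a : ℝ) - b| * (a.den * b.den) = |((a.num * b.den - b.num * a.den : ℤ) : ℝ)| := by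
    rw [← h1, abs_mul, abs_of_pos (by positivity : (0 : ℝ) < a.den * b.den)]
  rw [h3]
  have h4 : 1 ≤ |a.num * b.den - b.num * a.den| := Int.one_le_abs h2
  exact_mod_cast h4

theorem T_sum (θ : ℝ) (ρ : ℕ → ℚ) (h1 : ∀ s, |θ - ρ s| ≤ 1 / ((Qs s + 1) * (ρ s).den))
    (S : ℕ) : ∑ s ∈ range S, T θ s (ρ s) ≤ 8 := by
  have e1 : ∑ s ∈ range S, T θ s (ρ s) = ∑ s ∈ (range S).filter (fun s => (ρ s).den ^ 2 ≤ 2 ^ s),
      min (2 ^ s * |θ - ρ s|) (2 ^ s * |θ - ρ s|)⁻¹ / (ρ s).den := by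
    rw [Finset.sum_filter]
    rfl
  rw [e1]
  have hmaps : ∀ s ∈ (range S).filter (fun s => (ρ s).den ^ 2 ≤ 2 ^ s),
      Nat.log 2 (ρ s).den ∈ range S := by
    intro s hs
    obtain ⟨hs1, hs2⟩ := Finset.mem_filter.1 hs
    have hs1' := Finset.mem_range.1 hs1
    rw [Finset.mem_range]
    have h2 : 2 ^ Nat.log 2 (ρ s).den ≤ (ρ s).den := Nat.pow_log_le_self 2 (ρ s).pos.ne'
    have h3 : 2 ^ (2 * Nat.log 2 (ρ s).den) ≤ 2 ^ s := by
      rw [pow_mul', ]
      exact (Nat.pow_le_pow_left h2 2).trans hs2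
    have h4 := (Nat.pow_le_pow_iff_right (by norm_num : 1 < 2)).1 h3
    omega
  rw [← Finset.sum_fiberwise_of_maps_to hmaps]
  have key : ∀ k ∈ range S, ∑ s ∈ ((range S).filter (fun s => (ρ s).den ^ 2 ≤ 2 ^ s)).filter
      (fun s => Nat.log 2 (ρ s).den = k),
      min (2 ^ s * |θ - ρ s|) (2 ^ s * |θ - ρ s|)⁻¹ / (ρ s).den ≤ 4 * (1 / 2) ^ k := by
    intro k _
    set A := ((range S).filter (fun s => (ρ s).den ^ 2 ≤ 2 ^ s)).filter
      (fun s => Nat.log 2 (ρ s).den = k) with hA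
    have hmem : ∀ s ∈ A, s < S ∧ 2 * k ≤ s ∧ 2 ^ k ≤ (ρ s).den ∧ (ρ s).den < 2 ^ (k + 1) := by
      intro s hs
      obtain ⟨hs0, hs3⟩ := Finset.mem_filter.1 hs
      obtain ⟨hs1, hs2⟩ := Finset.mem_filter.1 hs0
      have h2 : 2 ^ Nat.log 2 (ρ s).den ≤ (ρ s).den := Nat.pow_log_le_self 2 (ρ s).pos.ne'
      have h2' : (ρ s).den < 2 ^ (Nat.log 2 (ρ s).den + 1) := Nat.lt_pow_succ_log_self (by norm_num) _
      rw [hs3] at h2 h2'
      have h3 : 2 ^ (2 * k) ≤ 2 ^ s := by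
        rw [pow_mul', ]
        exact (Nat.pow_le_pow_left h2 2).trans hs2
      have h4 := (Nat.pow_le_pow_iff_right (by norm_num : 1 < 2)).1 h3
      exact ⟨Finset.mem_range.1 hs1, h4, h2, h2'⟩
    have hsame : ∀ s ∈ A, ∀ t ∈ A, ρ s = ρ t := by
      intro s hs t ht
      by_contra hne
      obtain ⟨_, a2, a3, a4⟩ := hmem s hs
      obtain ⟨_, b2, b3, b4⟩ := hmem t ht
      have c1 := rat_sep _ _ hne
      have c2 := h1 s
      have c3 := h1 t
      have hQ : ∀ s, 2 * k ≤ s → (2 : ℝ) ^ (k + 2) ≤ Qs s := by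
        intro s hs
        unfold Qs
        push_cast
        rw [show (2 : ℝ) ^ (k + 2) = 4 * 2 ^ k by ring]
        have : (2 : ℝ) ^ k ≤ 2 ^ ((s + 1) / 2) := pow_le_pow_right₀ (by norm_num) (by omega)
        linarith
      have d1 := hQ s a2
      have d2 := hQ t b2
      have ds : (0 : ℝ) < (ρ s).den := by exact_mod_cast (ρ s).pos
      have dt : (0 : ℝ) < (ρ t).den := by exact_mod_cast (ρ t).pos
      have f1 : ((ρ s).den : ℝ) < 2 ^ (k + 1) := by exact_mod_cast a4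
      have f2 : ((ρ t).den : ℝ) < 2 ^ (k + 1) := by exact_mod_cast b4
      have f3 : (0 : ℝ) < 2 ^ (k + 1) := by positivity
      have f4 : (2 : ℝ) ^ (k + 2) = 2 * 2 ^ (k + 1) := by ring
      have g1 : |θ - ρ s| * (ρ s).den ≤ 1 / (2 * 2 ^ (k + 1)) := by
        have : |θ - ρ s| * (ρ s).den ≤ 1 / (Qs s + 1) := by
          calc |θ - ρ s| * (ρ s).den ≤ 1 / ((Qs s + 1) * (ρ s).den) * (ρ s).den := by gcongr
            _ = _ := by field_simp
        refine this.trans ?_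
        gcongr
        linarith
      have g2 : |θ - ρ t| * (ρ t).den ≤ 1 / (2 * 2 ^ (k + 1)) := by
        have : |θ - ρ t| * (ρ t).den ≤ 1 / (Qs t + 1) := by
          calc |θ - ρ t| * (ρ t).den ≤ 1 / ((Qs t + 1) * (ρ t).den) * (ρ t).den := by gcongr
            _ = _ := by field_simp
        refine this.trans ?_
        gcongr
        linarith
      have g3 : |(ρ s : ℝ) - ρ t| ≤ |θ - ρ s| + |θ - ρ t| := by
        have := abs_sub (θ - ρ t) (θ - ρ s)
        rw [show (θ - (ρ t : ℝ)) - (θ - ρ s) = ρ s - ρ t by ring] at this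
        linarith
      have g4 : |(ρ s : ℝ) - ρ t| * ((ρ s).den * (ρ t).den) ≤
          (|θ - ρ s| * (ρ s).den) * (ρ t).den + (|θ - ρ t| * (ρ t).den) * (ρ s).den := by
        have : 0 < ((ρ s).den : ℝ) * (ρ t).den := by positivity
        nlinarith
      have g5 : (|θ - ρ s| * (ρ s).den) * (ρ t).den < 1 / 2 := by
        calc (|θ - ρ s| * (ρ s).den) * (ρ t).den ≤ 1 / (2 * 2 ^ (k + 1)) * (ρ t).den := by gcongr
          _ < 1 / (2 * 2 ^ (k + 1)) * 2 ^ (k + 1) := by gcongr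
          _ = 1 / 2 := by field_simp
      have g6 : (|θ - ρ t| * (ρ t).den) * (ρ s).den < 1 / 2 := by
        calc (|θ - ρ t| * (ρ t).den) * (ρ s).den ≤ 1 / (2 * 2 ^ (k + 1)) * (ρ s).den := by gcongr
          _ < 1 / (2 * 2 ^ (k + 1)) * 2 ^ (k + 1) := by gcongr
          _ = 1 / 2 := by field_simp
      linarith
    rcases A.eq_empty_or_nonempty with h | ⟨s0, hs0⟩
    · rw [h]
      simp
    · obtain ⟨_, a2, a3, a4⟩ := hmem s0 hs0
      have ds : (0 : ℝ) < (ρ s0).den := by exact_mod_cast (ρ s0).pos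
      have ds' : (2 : ℝ) ^ k ≤ (ρ s0).den := by exact_mod_cast a3
      calc ∑ s ∈ A, min (2 ^ s * |θ - ρ s|) (2 ^ s * |θ - ρ s|)⁻¹ / (ρ s).den
          = ∑ s ∈ A, min (2 ^ s * |θ - ρ s0|) (2 ^ s * |θ - ρ s0|)⁻¹ / (ρ s0).den := by
            refine Finset.sum_congr rfl fun s hs => ?_
            rw [hsame s hs s0 hs0]
        _ = (∑ s ∈ A, min (2 ^ s * |θ - ρ s0|) (2 ^ s * |θ - ρ s0|)⁻¹) / (ρ s0).den := by
            rw [Finset.sum_div]
        _ ≤ (∑ s ∈ range S, min (2 ^ s * |θ - ρ s0|) (2 ^ s * |θ - ρ s0|)⁻¹) / (ρ s0).den := by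
            gcongr
            intro s hs
            exact Finset.mem_range.2 (hmem s hs).1
        _ ≤ 4 / 2 ^ k := by
            have := geo' S |θ - ρ s0| (abs_nonneg _)
            gcongr
        _ = 4 * (1 / 2) ^ k := by
            rw [one_div, inv_pow]
            rfl
  refine (Finset.sum_le_sum key).trans ?_
  rw [← Finset.mul_sum]
  have := sum_geometric_two_le S
  linarith

theorem inv_sq_sum (S : ℕ) : ∑ s ∈ range S, ((1 + s : ℝ) ^ 2)⁻¹ ≤ 2 - 2 / (S + 1) := by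
  induction S with
  | zero => simp
  | succ S ih =>
    rw [Finset.sum_range_succ]
    have : (((1 : ℝ) + S) ^ 2)⁻¹ ≤ 2 / (S + 1) - 2 / ((S + 1 : ℕ) + 1) := by
      rw [div_sub_div _ _ (by positivity) (by positivity), inv_eq_one_div,
        div_le_div_iff₀ (by positivity) (by positivity)]
      push_cast
      have : (0 : ℝ) ≤ S := Nat.cast_nonneg S
      nlinarith [mul_nonneg this this, mul_nonneg (mul_nonneg this this) this]
    linarith

theorem xs_sum (S : ℕ) : ∑ s ∈ range S, (xs s)⁻¹ ≤ 4 := by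
  have h2 : (7 : ℝ) / 5 ≤ Real.sqrt 2 := by
    apply Real.le_sqrt_of_sq_le
    norm_num
  have h3 : ∀ s, (xs s)⁻¹ ≤ (5 / 7) ^ s := by
    intro s
    unfold xs
    rw [← inv_pow]
    gcongr
    rw [inv_le_comm₀ (by positivity) (by norm_num)]
    norm_num
    exact h2
  calc ∑ s ∈ range S, (xs s)⁻¹ ≤ ∑ s ∈ range S, (5 / 7 : ℝ) ^ s :=
        Finset.sum_le_sum fun s _ => h3 s
    _ ≤ 4 := by
      rw [geom_sum_eq (by norm_num)]
      have : (0 : ℝ) < (5 / 7) ^ S := by positivity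
      rw [div_le_iff_of_neg (by norm_num)]
      linarith

end X112.SQ
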