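import Pool.Agent.X112.SQ.B
import Pool.Agent.X112.SQ.D2

set_option autoImplicit false

noncomputable section

namespace X112.SQ

open Finset

theorem T_nonneg (θ : ℝ) (s : ℕ) (ρ : ℚ) : 0 ≤ T θ s ρ := by
  unfold T
  split_ifs
  · positivity
  · exact le_rfl

theorem multiplier (θ : ℝ) (N : ℕ → ℕ) (hN : Monotone N) (hN0 : 1 ≤ N 0) (J : ℕ) :
    ∑ j ∈ range J, ‖av θ (N (j + 1)) - av θ (N j)‖ ^ 2 ≤ 24 * 13088 := by
  have hex : ∀ s, ∃ ρ : ℚ, |θ - ρ| ≤ 1 / ((Qs s + 1) * ρ.den) ∧ ρ.den ≤ Qs s := fun s =>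
    Real.exists_rat_abs_sub_le_and_den_le θ (n := Qs s) (by unfold Qs; positivity)
  choose ρ h1 h2 using hex
  refine var_le (av θ) W (fun s => 2600 * (xs s)⁻¹ + 128 * ((1 + s : ℝ) ^ 2)⁻¹ +
    304 * T θ s (ρ s)) 13088 (fun n hn => W_pos n hn) W_mono (fun n _ => W_two n)
    (fun n _ => W_four n) (fun n m hn hm => av_diff θ n m hn hm) ?_ ?_ ?_ N hN hN0 J
  · intro s
    have := T_nonneg θ s (ρ s)
    have := xs_pos s
    positivity
  · intro s n m a b c d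
    exact osc θ s (ρ s) (h1 s) (h2 s) n m a b c d
  · intro S
    rw [Finset.sum_add_distrib, Finset.sum_add_distrib, ← Finset.mul_sum, ← Finset.mul_sum,
      ← Finset.mul_sum]
    have e1 := xs_sum S
    have e2 := inv_sq_sum S
    have e3 := T_sum θ ρ h1 S
    have e4 : (0 : ℝ) ≤ 2 / (S + 1) := by positivity
    linarith

end X112.SQ
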