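import Mathlib

set_option autoImplicit false

noncomputable section

namespace X112.SQ

open Finset MeasureTheory

universe u

/-- `e(t) = exp(2 pi i t)` -/
def ee (t : ℝ) : ℂ := Complex.exp (2 * Real.pi * Complex.I * t)

open ZMod

/-- Parseval (after H505RS.T1) -/
theorem parseval {N : ℕ} [NeZero N] (b : ZMod N → ℂ) :
    ∑ k : ZMod N, ‖∑ j, b j * stdAddChar (-(k * j))‖ ^ 2 = N * ∑ j, ‖b j‖ ^ 2 := by
  have h : ((∑ k : ZMod N, ‖∑ j, b j * stdAddChar (-(k * j))‖ ^ 2 : ℝ) : ℂ) =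
      ((N * ∑ j, ‖b j‖ ^ 2 : ℝ) : ℂ) := by
    push_cast
    have e1 : ∀ k : ZMod N, ((‖∑ j, b j * stdAddChar (-(k * j))‖ : ℂ)) ^ 2 =
        ∑ j, ∑ l, b j * (starRingEnd ℂ) (b l) * stdAddChar (k * (l - j)) := by
      intro k
      rw [← Complex.mul_conj', map_sum, Finset.sum_mul_sum]
      refine Finset.sum_congr rfl fun j _ => Finset.sum_congr rfl fun l _ => ?_
      rw [map_mul, ← AddChar.map_neg_eq_conj, neg_neg]
      have : (stdAddChar (k * (l - j)) : ℂ) = stdAddChar (-(k * j)) * stdAddChar (k * l) := by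
        rw [← AddChar.map_add_eq_mul]
        congr 1
        ring
      rw [this]
      ring
    simp only [e1]
    rw [Finset.sum_comm, Finset.mul_sum]
    refine Finset.sum_congr rfl fun j _ => ?_
    rw [Finset.sum_comm]
    have e2 : ∀ l : ZMod N, ∑ k : ZMod N, b j * (starRingEnd ℂ) (b l) *
        stdAddChar (k * (l - j)) = if l = j then (N : ℂ) * (‖b j‖ : ℂ) ^ 2 else 0 := by
      intro l
      rw [← Finset.mul_sum, AddChar.sum_mulShift _ (isPrimitive_stdAddChar N), ZMod.card]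
      by_cases h : l = j
      · rw [if_pos h, if_pos (sub_eq_zero.2 h), h, Complex.mul_conj']
        ring
      · rw [if_neg h, if_neg (sub_ne_zero.2 h)]
        simp
    simp only [e2]
    simp
  exact_mod_cast h

theorem convol {N : ℕ} [NeZero N] (L : ℕ) (c : ℕ → ℂ) (g : ZMod N → ℂ) (k : ZMod N) :
    ∑ j, (∑ n ∈ Icc 1 L, c n * g ((n : ZMod N) + j)) * stdAddChar (-(k * j)) =
      (∑ n ∈ Icc 1 L, c n * stdAddChar (k * (n : ZMod N))) * ∑ j, g j * stdAddChar (-(k * j)) := by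
  rw [Finset.sum_mul]
  simp only [Finset.sum_mul]
  rw [Finset.sum_comm]
  refine Finset.sum_congr rfl fun n _ => ?_
  rw [Finset.mul_sum]
  rw [← Equiv.sum_comp (Equiv.addLeft (n : ZMod N))
    (fun j => c n * stdAddChar (k * (n : ZMod N)) * (g j * stdAddChar (-(k * j))))]
  refine Finset.sum_congr rfl fun j _ => ?_
  rw [Equiv.coe_addLeft]
  have : (stdAddChar (-(k * j)) : ℂ) =
      stdAddChar (k * (n : ZMod N)) * stdAddChar (-(k * ((n : ZMod N) + j))) := by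
    rw [← AddChar.map_add_eq_mul]
    congr 1
    ring
  rw [this]
  ring

/-- finite transference -/
theorem finite (J L M : ℕ) (c : ℕ → ℕ → ℂ) (C : ℝ)
    (h : ∀ t : ℝ, ∑ j ∈ range J, ‖∑ n ∈ Icc 1 L, c j n * ee (n * t)‖ ^ 2 ≤ C)
    (g : ℕ → ℂ) :
    ∑ m ∈ range M, ∑ j ∈ range J, ‖∑ n ∈ Icc 1 L, c j n * g (n + m)‖ ^ 2 ≤
      C * ∑ m ∈ range (M + L + 1), ‖g m‖ ^ 2 := by
  have : NeZero (M + L + 1) := ⟨by omega⟩
  set N := M + L + 1 with hN
  let G : ZMod N → ℂ := fun m => g m.val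
  let b : ℕ → ZMod N → ℂ := fun i j => ∑ n ∈ Icc 1 L, c i n * G ((n : ZMod N) + j)
  have hC : ∀ k : ZMod N, ∑ i ∈ range J, ‖∑ n ∈ Icc 1 L, c i n * stdAddChar (k * (n : ZMod N))‖ ^ 2
      ≤ C := by
    intro k
    refine le_trans (le_of_eq ?_) (h ((k.val : ℝ) / N))
    refine Finset.sum_congr rfl fun i _ => ?_
    congr 2
    refine Finset.sum_congr rfl fun n _ => ?_
    congr 1
    have e1 : k * (n : ZMod N) = (((k.val * n : ℕ) : ℤ) : ZMod N) := by
      push_cast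
      rw [ZMod.natCast_zmod_val]
    rw [e1, ZMod.stdAddChar_coe]
    unfold ee
    congr 1
    push_cast
    ring
  have hN0 : (0 : ℝ) < N := by
    have : 0 < N := by omega
    exact_mod_cast this
  have h1 : (N : ℝ) * ∑ i ∈ range J, ∑ j, ‖b i j‖ ^ 2 ≤ N * (C * ∑ j, ‖G j‖ ^ 2) := by
    have e0 : (N : ℝ) * (C * ∑ j, ‖G j‖ ^ 2) = C * (N * ∑ j, ‖G j‖ ^ 2) := by ring
    rw [e0, ← parseval G, Finset.mul_sum]
    have e1 : ∀ i ∈ range J, (N : ℝ) * ∑ j, ‖b i j‖ ^ 2 =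
        ∑ k : ZMod N, ‖∑ n ∈ Icc 1 L, c i n * stdAddChar (k * (n : ZMod N))‖ ^ 2 *
          ‖∑ j, G j * stdAddChar (-(k * j))‖ ^ 2 := by
      intro i _
      rw [← parseval (b i)]
      refine Finset.sum_congr rfl fun k _ => ?_
      rw [show ∑ j, b i j * stdAddChar (-(k * j)) = _ from convol L (c i) G k, norm_mul, mul_pow]
    rw [Finset.sum_congr rfl e1, Finset.sum_comm, Finset.mul_sum]
    refine Finset.sum_le_sum fun k _ => ?_
    rw [← Finset.sum_mul]
    exact mul_le_mul_of_nonneg_right (hC k) (by positivity)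
  have h2 : ∑ i ∈ range J, ∑ j, ‖b i j‖ ^ 2 ≤ C * ∑ j, ‖G j‖ ^ 2 :=
    le_of_mul_le_mul_left h1 hN0
  have h3 : ∑ j, ‖G j‖ ^ 2 = ∑ m ∈ range N, ‖g m‖ ^ 2 := by
    rw [← Finset.sum_nbij (i := fun m : ZMod N => m.val) (s := Finset.univ) (t := range N)
      (f := fun m => ‖G m‖ ^ 2)]
    · intro m _
      exact Finset.mem_range.2 (ZMod.val_lt m)
    · intro a _ b _ hab
      exact ZMod.val_injective N hab
    · intro m hm
      refine ⟨(m : ZMod N), Finset.mem_coe.2 (Finset.mem_univ _), ?_⟩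
      show ((m : ℕ) : ZMod N).val = m
      rw [ZMod.val_natCast, Nat.mod_eq_of_lt (Finset.mem_range.1 (Finset.mem_coe.1 hm))]
    · intro m _
      rfl
  have h4 : ∀ i ∈ range J, ∑ m ∈ range M, ‖∑ n ∈ Icc 1 L, c i n * g (n + m)‖ ^ 2 ≤
      ∑ j, ‖b i j‖ ^ 2 := by
    intro i _
    have e1 : ∀ j ∈ range M, ‖∑ n ∈ Icc 1 L, c i n * g (n + j)‖ ^ 2 = ‖b i (j : ZMod N)‖ ^ 2 := by
      intro j hj
      have hj' := Finset.mem_range.1 hj
      congr 2
      show _ = ∑ n ∈ Icc 1 L, (c i n : ℂ) * G ((n : ZMod N) + (j : ZMod N))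
      refine Finset.sum_congr rfl fun n hn => ?_
      have hn' := (Finset.mem_Icc.1 hn).2
      congr 1
      have e3 : (n : ZMod N) + (j : ZMod N) = ((n + j : ℕ) : ZMod N) := by push_cast; ring
      rw [e3]
      show g (n + j) = g (((n + j : ℕ) : ZMod N).val)
      rw [ZMod.val_natCast, Nat.mod_eq_of_lt (by omega)]
    rw [Finset.sum_congr rfl e1]
    have hinj : Set.InjOn (fun j : ℕ => (j : ZMod N)) (range M : Set ℕ) := by
      intro a ha b hb hab
      have ha' : a < M := by simpa using ha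
      have hb' : b < M := by simpa using hb
      have := congrArg ZMod.val hab
      simp only [ZMod.val_natCast] at this
      rwa [Nat.mod_eq_of_lt (by omega), Nat.mod_eq_of_lt (by omega)] at this
    rw [← Finset.sum_image (f := fun j => ‖b i j‖ ^ 2) hinj]
    exact Finset.sum_le_sum_of_subset_of_nonneg (Finset.subset_univ _)
      (fun _ _ _ => by positivity)
  rw [Finset.sum_comm, ← h3]
  exact (Finset.sum_le_sum h4).trans h2

/-- transference to measure preserving systems -/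
theorem trans (J L : ℕ) (c : ℕ → ℕ → ℂ) (C : ℝ) (hC : 0 ≤ C)
    (h : ∀ t : ℝ, ∑ j ∈ range J, ‖∑ n ∈ Icc 1 L, c j n * ee (n * t)‖ ^ 2 ≤ C)
    {X : Type u} [MeasurableSpace X] (μ : Measure X) (T : X → X)
    (hT : MeasurePreserving T μ μ) (f : X → ℂ) (hf : AEMeasurable f μ) :
    ∑ j ∈ range J, ∫⁻ x, ENNReal.ofReal (‖∑ n ∈ Icc 1 L, c j n * f (T^[n] x)‖ ^ 2) ∂μ ≤
      ENNReal.ofReal C * ∫⁻ x, ENNReal.ofReal (‖f x‖ ^ 2) ∂μ := by
  have hTj : ∀ j : ℕ, MeasurePreserving (T^[j]) μ μ := fun j => hT.iterate j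
  have hfj : ∀ j : ℕ, AEMeasurable (fun x => f (T^[j] x)) μ := by
    intro j
    have : AEMeasurable f (Measure.map (T^[j]) μ) := by rw [(hTj j).map_eq]; exact hf
    exact this.comp_aemeasurable (hTj j).measurable.aemeasurable
  let F : ℕ → X → ENNReal := fun j x =>
    ENNReal.ofReal (‖∑ n ∈ Icc 1 L, c j n * f (T^[n] x)‖ ^ 2)
  have hFm : ∀ j, AEMeasurable (F j) μ := by
    intro j
    refine AEMeasurable.ennreal_ofReal (AEMeasurable.pow_const (AEMeasurable.norm ?_) 2)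
    exact Finset.aemeasurable_fun_sum _ fun n _ => (hfj n).const_mul _
  have hgm : AEMeasurable (fun x => ENNReal.ofReal (‖f x‖ ^ 2)) μ :=
    (hf.norm.pow_const 2).ennreal_ofReal
  have hinv : ∀ (G : X → ENNReal), AEMeasurable G μ → ∀ m : ℕ,
      ∫⁻ x, G (T^[m] x) ∂μ = ∫⁻ x, G x ∂μ := by
    intro G hG m
    conv_rhs => rw [← (hTj m).map_eq]
    rw [lintegral_map' (by rw [(hTj m).map_eq]; exact hG) (hTj m).measurable.aemeasurable]
  have hcm : ∀ (G : X → ENNReal), AEMeasurable G μ → ∀ m : ℕ,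
      AEMeasurable (fun x => G (T^[m] x)) μ := by
    intro G hG m
    have : AEMeasurable G (Measure.map (T^[m]) μ) := by rw [(hTj m).map_eq]; exact hG
    exact this.comp_aemeasurable (hTj m).measurable.aemeasurable
  have hmain : ∀ M : ℕ, (M : ENNReal) * ∑ j ∈ range J, ∫⁻ x, F j x ∂μ ≤
      ENNReal.ofReal C * ((M + L + 1 : ℕ) * ∫⁻ x, ENNReal.ofReal (‖f x‖ ^ 2) ∂μ) := by
    intro M
    have e1 : (M : ENNReal) * ∑ j ∈ range J, ∫⁻ x, F j x ∂μ =
        ∫⁻ x, ∑ m ∈ range M, ∑ j ∈ range J, F j (T^[m] x) ∂μ := by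
      rw [lintegral_finset_sum' _ (fun m _ => Finset.aemeasurable_fun_sum _
        fun j _ => hcm _ (hFm j) m)]
      have : ∀ m ∈ range M, ∫⁻ x, ∑ j ∈ range J, F j (T^[m] x) ∂μ =
          ∑ j ∈ range J, ∫⁻ x, F j x ∂μ := by
        intro m _
        rw [lintegral_finset_sum' _ (fun j _ => hcm _ (hFm j) m)]
        exact Finset.sum_congr rfl fun j _ => hinv _ (hFm j) m
      rw [Finset.sum_congr rfl this, Finset.sum_const, card_range, nsmul_eq_mul]
    have e2 : ENNReal.ofReal C * ((M + L + 1 : ℕ) * ∫⁻ x, ENNReal.ofReal (‖f x‖ ^ 2) ∂μ) =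
        ∫⁻ x, ENNReal.ofReal C * ∑ m ∈ range (M + L + 1),
          ENNReal.ofReal (‖f (T^[m] x)‖ ^ 2) ∂μ := by
      rw [lintegral_const_mul' _ _ ENNReal.ofReal_ne_top]
      congr 1
      rw [lintegral_finset_sum' _ (fun m _ => hcm _ hgm m)]
      have : ∀ m ∈ range (M + L + 1), ∫⁻ x, ENNReal.ofReal (‖f (T^[m] x)‖ ^ 2) ∂μ =
          ∫⁻ x, ENNReal.ofReal (‖f x‖ ^ 2) ∂μ := fun m _ =>
        hinv (fun x => ENNReal.ofReal (‖f x‖ ^ 2)) hgm m
      rw [Finset.sum_congr rfl this, Finset.sum_const, card_range, nsmul_eq_mul]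
    rw [e1, e2]
    refine lintegral_mono fun x => ?_
    have hp := finite J L M c C h (fun m => f (T^[m] x))
    have e3 : ∑ m ∈ range M, ∑ j ∈ range J, F j (T^[m] x) =
        ENNReal.ofReal (∑ m ∈ range M, ∑ j ∈ range J,
          ‖∑ n ∈ Icc 1 L, c j n * f (T^[n + m] x)‖ ^ 2) := by
      rw [ENNReal.ofReal_sum_of_nonneg (fun m _ => Finset.sum_nonneg fun j _ => by positivity)]
      refine Finset.sum_congr rfl fun m _ => ?_
      rw [ENNReal.ofReal_sum_of_nonneg (fun j _ => by positivity)]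
      refine Finset.sum_congr rfl fun j _ => ?_
      show ENNReal.ofReal (‖∑ n ∈ Icc 1 L, c j n * f (T^[n] (T^[m] x))‖ ^ 2) = _
      simp only [Function.iterate_add_apply]
    have e4 : ENNReal.ofReal C * ∑ m ∈ range (M + L + 1), ENNReal.ofReal (‖f (T^[m] x)‖ ^ 2) =
        ENNReal.ofReal (C * ∑ m ∈ range (M + L + 1), ‖f (T^[m] x)‖ ^ 2) := by
      rw [ENNReal.ofReal_mul hC, ENNReal.ofReal_sum_of_nonneg (fun m _ => by positivity)]
    show ∑ m ∈ range M, ∑ j ∈ range J, F j (T^[m] x) ≤ ENNReal.ofReal C *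
      ∑ m ∈ range (M + L + 1), ENNReal.ofReal (‖f (T^[m] x)‖ ^ 2)
    rw [e3, e4]
    exact ENNReal.ofReal_le_ofReal hp
  set A := ∑ j ∈ range J, ∫⁻ x, F j x ∂μ with hA
  set B := ENNReal.ofReal C * ∫⁻ x, ENNReal.ofReal (‖f x‖ ^ 2) ∂μ with hB
  have hmain' : ∀ M : ℕ, (M : ENNReal) * A ≤ (M + L + 1 : ℕ) * B := by
    intro M
    refine (hmain M).trans (le_of_eq ?_)
    rw [hB]; ring
  by_cases hBt : B = ⊤
  · show A ≤ B
    rw [hBt]; exact le_top
  have hAt : A ≠ ⊤ := by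
    intro hAt
    have := hmain' 1
    rw [hAt] at this
    simp only [Nat.cast_one, one_mul, top_le_iff] at this
    exact ENNReal.mul_ne_top (ENNReal.natCast_ne_top _) hBt this
  show A ≤ B
  rw [← ENNReal.toReal_le_toReal hAt hBt]
  have hr : ∀ M : ℕ, (M : ℝ) * A.toReal ≤ (M + L + 1) * B.toReal := by
    intro M
    have := ENNReal.toReal_mono (ENNReal.mul_ne_top (ENNReal.natCast_ne_top _) hBt) (hmain' M)
    rw [ENNReal.toReal_mul, ENNReal.toReal_mul, ENNReal.toReal_natCast, ENNReal.toReal_natCast]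
      at this
    push_cast at this
    exact this
  by_contra hcon
  push Not at hcon
  obtain ⟨M, hM⟩ := exists_nat_gt ((L + 1) * B.toReal / (A.toReal - B.toReal))
  have hd : 0 < A.toReal - B.toReal := by linarith
  rw [div_lt_iff₀ hd] at hM
  have := hr M
  nlinarith

end X112.SQ
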