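import Mathlib

set_option autoImplicit false

noncomputable section

namespace X112.SQ

open Finset

/-- variation bound from dyadic oscillations -/
theorem var_le (a : ℕ → ℂ) (W O : ℕ → ℝ) (K : ℝ)
    (hW1 : ∀ n, 1 ≤ n → 0 < W n) (hWm : ∀ n, W n ≤ W (n + 1))
    (hW2 : ∀ n, 1 ≤ n → 2 * W n ≤ W (2 * n)) (hW4 : ∀ n, 1 ≤ n → W (2 * n) ≤ 4 * W n)
    (ha : ∀ n m, 1 ≤ n → n ≤ m → ‖a m - a n‖ ≤ 2 * (W m - W n) / W m)
    (hO0 : ∀ s, 0 ≤ O s)
    (hO : ∀ s n m, 2 ^ s ≤ n → n ≤ 2 ^ (s + 2) → 2 ^ s ≤ m → m ≤ 2 ^ (s + 2) →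
      ‖a m - a n‖ ≤ O s)
    (hK : ∀ S, ∑ s ∈ range S, O s ≤ K)
    (N : ℕ → ℕ) (hN : Monotone N) (hN0 : 1 ≤ N 0) (J : ℕ) :
    ∑ j ∈ range J, ‖a (N (j + 1)) - a (N j)‖ ^ 2 ≤ 24 * K := by
  have hWmono : Monotone W := monotone_nat_of_le_succ hWm
  let R : ℕ → ℝ := fun s => 2 * (O (s - 1) + O s + O (s + 1))
  have hR0 : ∀ s, 0 ≤ R s := fun s => by
    have := hO0 (s - 1); have := hO0 s; have := hO0 (s + 1)
    show 0 ≤ 2 * (O (s - 1) + O s + O (s + 1))
    linarith
  let th : ℕ → ℝ := fun i => R (Nat.log 2 i) * ((W (i + 1) - W i) / W (2 ^ Nat.log 2 i))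
  have hp2 : ∀ s : ℕ, 1 ≤ 2 ^ s := fun s => Nat.one_le_two_pow
  have hth0 : ∀ i, 0 ≤ th i := fun i =>
    mul_nonneg (hR0 _) (div_nonneg (by linarith [hWm i]) (hW1 _ (hp2 _)).le)
  let V : ℕ → ℝ := fun n => ∑ i ∈ range n, th i
  have hVm : Monotone V := by
    refine monotone_nat_of_le_succ fun n => ?_
    show ∑ i ∈ range n, th i ≤ ∑ i ∈ range (n + 1), th i
    rw [Finset.sum_range_succ]
    linarith [hth0 n]
  have hVd : ∀ n m, n ≤ m → V m - V n = ∑ i ∈ Ico n m, th i := by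
    intro n m h
    show ∑ i ∈ range m, th i - ∑ i ∈ range n, th i = _
    rw [Finset.sum_Ico_eq_sub _ h]
  have htel : ∀ n m, n ≤ m → ∑ i ∈ Ico n m, (W (i + 1) - W i) = W m - W n := by
    intro n m h
    rw [Finset.sum_Ico_eq_sub _ h, Finset.sum_range_sub, Finset.sum_range_sub]
    ring
  have hblock : ∀ s, V (2 ^ (s + 1)) - V (2 ^ s) =
      R s * ((W (2 ^ (s + 1)) - W (2 ^ s)) / W (2 ^ s)) := by
    intro s
    have h1 : 2 ^ s ≤ 2 ^ (s + 1) := Nat.pow_le_pow_right (by norm_num) (by omega)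
    rw [hVd _ _ h1, ← htel _ _ h1, Finset.sum_div, Finset.mul_sum]
    refine Finset.sum_congr rfl fun i hi => ?_
    have hi' := Finset.mem_Ico.1 hi
    have : Nat.log 2 i = s := by
      rw [Nat.log_eq_iff (Or.inr ⟨by norm_num, by have := hp2 s; omega⟩)]
      exact hi'
    show R (Nat.log 2 i) * ((W (i + 1) - W i) / W (2 ^ Nat.log 2 i)) = _
    rw [this]
  have hblock1 : ∀ s, R s ≤ V (2 ^ (s + 1)) - V (2 ^ s) := by
    intro s
    rw [hblock]
    have h2 := hW2 (2 ^ s) (hp2 s)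
    rw [show 2 * 2 ^ s = 2 ^ (s + 1) by ring] at h2
    have h3 := hW1 (2 ^ s) (hp2 s)
    have : 1 ≤ (W (2 ^ (s + 1)) - W (2 ^ s)) / W (2 ^ s) := by
      rw [le_div_iff₀ h3]; linarith
    nlinarith [hR0 s]
  have hblock2 : ∀ s, V (2 ^ (s + 1)) - V (2 ^ s) ≤ 3 * R s := by
    intro s
    rw [hblock]
    have h2 := hW4 (2 ^ s) (hp2 s)
    rw [show 2 * 2 ^ s = 2 ^ (s + 1) by ring] at h2
    have h3 := hW1 (2 ^ s) (hp2 s)
    have : (W (2 ^ (s + 1)) - W (2 ^ s)) / W (2 ^ s) ≤ 3 := by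
      rw [div_le_iff₀ h3]; linarith
    nlinarith [hR0 s]
  have hchain : ∀ r t, r ≤ t → ‖a (2 ^ t) - a (2 ^ r)‖ ≤ ∑ s ∈ Ico r t, O s := by
    intro r t h
    induction t, h using Nat.le_induction with
    | base => simp
    | succ t hrt ih =>
      rw [Finset.sum_Ico_succ_top hrt]
      have h1 : ‖a (2 ^ (t + 1)) - a (2 ^ t)‖ ≤ O t :=
        hO t _ _ le_rfl (Nat.pow_le_pow_right (by norm_num) (by omega))
          (Nat.pow_le_pow_right (by norm_num) (by omega))
          (Nat.pow_le_pow_right (by norm_num) (by omega))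
      have h2 : a (2 ^ (t + 1)) - a (2 ^ r) =
          (a (2 ^ (t + 1)) - a (2 ^ t)) + (a (2 ^ t) - a (2 ^ r)) := by ring
      rw [h2]
      exact (norm_add_le _ _).trans (by linarith)
  have hkey : ∀ n m, 1 ≤ n → n < m → ‖a m - a n‖ ^ 2 ≤ V m - V n := by
    intro n m hn hnm
    set r := Nat.log 2 n with hr
    have hn1 : 2 ^ r ≤ n := Nat.pow_log_le_self 2 (by omega)
    have hn2 : n < 2 ^ (r + 1) := Nat.lt_pow_succ_log_self (by norm_num) n
    have h22 : 2 ^ (r + 2) = 2 * 2 ^ (r + 1) := by ring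
    have h21 : 2 ^ (r + 1) = 2 * 2 ^ r := by ring
    by_cases hm : m < 2 ^ (r + 2)
    · have h1 : ‖a m - a n‖ ≤ O r := hO r n m hn1 (by omega) (by omega) (by omega)
      have h2 := ha n m hn hnm.le
      have hWm0 := hW1 m (by omega)
      rw [hVd _ _ hnm.le]
      calc ‖a m - a n‖ ^ 2 = ‖a m - a n‖ * ‖a m - a n‖ := by ring
        _ ≤ O r * (2 * (W m - W n) / W m) := mul_le_mul h1 h2 (norm_nonneg _) (hO0 r)
        _ = ∑ i ∈ Ico n m, 2 * O r * ((W (i + 1) - W i) / W m) := by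
          rw [← Finset.mul_sum, ← Finset.sum_div, htel _ _ hnm.le]; ring
        _ ≤ ∑ i ∈ Ico n m, th i := by
          refine Finset.sum_le_sum fun i hi => ?_
          have hi' := Finset.mem_Ico.1 hi
          have hi0 : i ≠ 0 := by omega
          have hl1 : r ≤ Nat.log 2 i := Nat.log_mono_right hi'.1
          have hl2 : Nat.log 2 i < r + 2 := Nat.log_lt_of_lt_pow hi0 (by omega)
          have hpi : 2 ^ Nat.log 2 i ≤ i := Nat.pow_log_le_self 2 hi0
          have hWi : W (2 ^ Nat.log 2 i) ≤ W m := hWmono (by omega)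
          have hRr : 2 * O r ≤ R (Nat.log 2 i) := by
            show 2 * O r ≤ 2 * (O (Nat.log 2 i - 1) + O (Nat.log 2 i) + O (Nat.log 2 i + 1))
            have e1 := hO0 (Nat.log 2 i - 1)
            have e2 := hO0 (Nat.log 2 i)
            have e3 := hO0 (Nat.log 2 i + 1)
            rcases (show Nat.log 2 i = r ∨ Nat.log 2 i - 1 = r by omega) with h | h
            · rw [h] at e1 e3 ⊢
              have := hO0 r
              linarith
            · rw [h] at e1 ⊢
              linarith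
          have hdiv : (W (i + 1) - W i) / W m ≤ (W (i + 1) - W i) / W (2 ^ Nat.log 2 i) :=
            div_le_div_of_nonneg_left (by linarith [hWm i]) (hW1 _ (hp2 _)) hWi
          exact mul_le_mul hRr hdiv (div_nonneg (by linarith [hWm i]) hWm0.le) (hR0 _)
    · push Not at hm
      set t := Nat.log 2 m with ht
      have hm1 : 2 ^ t ≤ m := Nat.pow_log_le_self 2 (by omega)
      have hm2 : m < 2 ^ (t + 1) := Nat.lt_pow_succ_log_self (by norm_num) m
      have h23 : 2 ^ (t + 1) = 2 * 2 ^ t := by ring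
      have hrt : r + 2 ≤ t := by
        rw [ht]
        exact (Nat.le_log_iff_pow_le (by norm_num) (by omega)).2 hm
      have h1 : ‖a (2 ^ (r + 1)) - a n‖ ≤ O r :=
        hO r n _ hn1 (by omega) (by omega) (by omega)
      have h24 : 2 ^ (t + 2) = 4 * 2 ^ t := by ring
      have h2 : ‖a m - a (2 ^ t)‖ ≤ O t :=
        hO t _ m le_rfl (by omega) hm1 (by omega)
      have h3 := hchain (r + 1) t (by omega)
      have h4 : ‖a m - a n‖ ≤ O r + ∑ s ∈ Ico (r + 1) t, O s + O t := by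
        have : a m - a n = (a m - a (2 ^ t)) + (a (2 ^ t) - a (2 ^ (r + 1))) +
            (a (2 ^ (r + 1)) - a n) := by ring
        rw [this]
        refine (norm_add_le _ _).trans ?_
        have := norm_add_le (a m - a (2 ^ t)) (a (2 ^ t) - a (2 ^ (r + 1)))
        linarith
      have h5 : ‖a m - a n‖ ≤ 2 := by
        refine (ha n m hn hnm.le).trans ?_
        have hWm0 := hW1 m (by omega)
        rw [div_le_iff₀ hWm0]
        linarith [hW1 n hn]
      have h6 : O r ≤ ∑ s ∈ Ico (r + 1) t, O (s - 1) := by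
        have := Finset.single_le_sum (f := fun s => O (s - 1)) (fun s _ => hO0 (s - 1))
          (Finset.mem_Ico.2 ⟨le_rfl, by omega⟩ : r + 1 ∈ Ico (r + 1) t)
        simpa using this
      have h7 : O t ≤ ∑ s ∈ Ico (r + 1) t, O (s + 1) := by
        have := Finset.single_le_sum (f := fun s => O (s + 1)) (fun s _ => hO0 (s + 1))
          (Finset.mem_Ico.2 ⟨by omega, by omega⟩ : t - 1 ∈ Ico (r + 1) t)
        simpa [show t - 1 + 1 = t by omega] using this
      have h8 : 2 * ‖a m - a n‖ ≤ ∑ s ∈ Ico (r + 1) t, R s := by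
        have : ∑ s ∈ Ico (r + 1) t, R s = 2 * (∑ s ∈ Ico (r + 1) t, O (s - 1) +
            ∑ s ∈ Ico (r + 1) t, O s + ∑ s ∈ Ico (r + 1) t, O (s + 1)) := by
          rw [← Finset.sum_add_distrib, ← Finset.sum_add_distrib, Finset.mul_sum]
        rw [this]
        linarith
      have h9 : ∑ s ∈ Ico (r + 1) t, R s ≤ V (2 ^ t) - V (2 ^ (r + 1)) := by
        have : V (2 ^ t) - V (2 ^ (r + 1)) =
            ∑ s ∈ Ico (r + 1) t, (V (2 ^ (s + 1)) - V (2 ^ s)) := by
          rw [Finset.sum_Ico_eq_sub _ (by omega : r + 1 ≤ t),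
            Finset.sum_range_sub (fun s => V (2 ^ s)), Finset.sum_range_sub (fun s => V (2 ^ s))]
          ring
        rw [this]
        exact Finset.sum_le_sum fun s _ => hblock1 s
      have h10 : V (2 ^ t) ≤ V m := hVm hm1
      have h11 : V n ≤ V (2 ^ (r + 1)) := hVm (by omega)
      nlinarith [norm_nonneg (a m - a n)]
  have hsum : ∑ j ∈ range J, ‖a (N (j + 1)) - a (N j)‖ ^ 2 ≤ V (N J) - V (N 0) := by
    rw [← Finset.sum_range_sub (fun j => V (N j))]
    refine Finset.sum_le_sum fun j _ => ?_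
    rcases (hN (Nat.le_succ j)).eq_or_lt with h | h
    · rw [← h]
      simp
    · exact hkey _ _ (hN0.trans (hN (Nat.zero_le j))) h
  have hVtop : ∀ S, V (2 ^ S) - V 1 ≤ ∑ s ∈ range S, 3 * R s := by
    intro S
    have : V (2 ^ S) - V 1 = ∑ s ∈ range S, (V (2 ^ (s + 1)) - V (2 ^ s)) := by
      rw [Finset.sum_range_sub (fun s => V (2 ^ s))]
      simp
    rw [this]
    exact Finset.sum_le_sum fun s _ => hblock2 s
  have hRs : ∀ S, ∑ s ∈ range S, R s ≤ 8 * K := by
    intro S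
    have e1 : ∑ s ∈ range S, O (s - 1) ≤ 2 * K := by
      rcases S with _ | S
      · have := hK 0
        simp at this ⊢
        linarith
      · rw [Finset.sum_range_succ']
        have h1 := hK S
        have h2 := hK 1
        simp at h1 h2 ⊢
        linarith
    have e2 := hK S
    have e3 : ∑ s ∈ range S, O (s + 1) ≤ K := by
      have h1 := hK (S + 1)
      rw [Finset.sum_range_succ'] at h1
      linarith [hO0 0]
    have : ∑ s ∈ range S, R s = 2 * (∑ s ∈ range S, O (s - 1) +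
        ∑ s ∈ range S, O s + ∑ s ∈ range S, O (s + 1)) := by
      rw [← Finset.sum_add_distrib, ← Finset.sum_add_distrib, Finset.mul_sum]
    rw [this]
    linarith
  have hfin : V (N J) - V (N 0) ≤ 24 * K := by
    have h1 : V (N J) ≤ V (2 ^ (N J)) := hVm Nat.lt_two_pow_self.le
    have h2 : V 1 ≤ V (N 0) := hVm hN0
    have h3 := hVtop (N J)
    have h4 := hRs (N J)
    rw [← Finset.mul_sum] at h3
    linarith
  exact hsum.trans hfin

end X112.SQ
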