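import Mathlib

set_option autoImplicit false

noncomputable section

namespace X112.SQ

open Finset

theorem sum_div (g : ℕ → ℂ) (n : ℕ) :
    ∑ k ∈ Ioc 0 n, ((Nat.divisors k).card : ℂ) * g k =
      ∑ u ∈ Ioc 0 n, ∑ v ∈ Ioc 0 (n / u), g (u * v) := by
  have h1 : ∀ k ∈ Ioc 0 n, ((Nat.divisors k).card : ℂ) * g k =
      ∑ u ∈ Ioc 0 n, if u ∣ k then g k else 0 := by
    intro k hk
    rw [← Finset.sum_filter, Finset.sum_const, nsmul_eq_mul]
    congr 3
    ext u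
    have hk' := Finset.mem_Ioc.1 hk
    simp only [Nat.mem_divisors, Finset.mem_filter, Finset.mem_Ioc]
    constructor
    · rintro ⟨h, _⟩
      exact ⟨⟨Nat.pos_of_dvd_of_pos h hk'.1, (Nat.le_of_dvd hk'.1 h).trans hk'.2⟩, h⟩
    · rintro ⟨_, h⟩
      exact ⟨h, by omega⟩
  rw [Finset.sum_congr rfl h1, Finset.sum_comm]
  refine Finset.sum_congr rfl fun u hu => ?_
  have hu' := Finset.mem_Ioc.1 hu
  rw [← Finset.sum_filter]
  symm
  refine Finset.sum_bij (fun v _ => u * v) ?_ ?_ ?_ ?_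
  · intro v hv
    have hv' := Finset.mem_Ioc.1 hv
    simp only [Finset.mem_filter, Finset.mem_Ioc]
    refine ⟨⟨Nat.mul_pos hu'.1 hv'.1, ?_⟩, dvd_mul_right _ _⟩
    have := (Nat.le_div_iff_mul_le hu'.1).1 hv'.2
    linarith [mul_comm u v]
  · intro a _ b _ h
    exact Nat.eq_of_mul_eq_mul_left hu'.1 h
  · intro k hk
    simp only [Finset.mem_filter, Finset.mem_Ioc] at hk
    obtain ⟨⟨hk1, hk2⟩, c, rfl⟩ := hk
    refine ⟨c, ?_, rfl⟩
    simp only [Finset.mem_Ioc]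
    refine ⟨Nat.pos_of_mul_pos_left hk1 |> fun h => h, ?_⟩
    rw [Nat.le_div_iff_mul_le hu'.1]
    linarith [mul_comm u c]
  · intro v _
    rfl

theorem hyper (g : ℕ → ℂ) (n r : ℕ) (h1 : r * r ≤ n) (h2 : n < (r + 1) * (r + 1)) :
    ∑ k ∈ Ioc 0 n, ((Nat.divisors k).card : ℂ) * g k =
      2 * ∑ u ∈ Ioc 0 r, ∑ v ∈ Ioc 0 (n / u), g (u * v) -
        ∑ u ∈ Ioc 0 r, ∑ v ∈ Ioc 0 r, g (u * v) := by
  have hrn : r ≤ n := by
    rcases Nat.eq_zero_or_pos r with h | h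
    · omega
    · nlinarith
  rw [sum_div, ← Finset.sum_Ioc_consecutive _ (Nat.zero_le r) hrn]
  have h3 : ∑ u ∈ Ioc r n, ∑ v ∈ Ioc 0 (n / u), g (u * v) =
      ∑ v ∈ Ioc 0 r, ∑ u ∈ Ioc r (n / v), g (u * v) := by
    refine Finset.sum_comm' fun u v => ?_
    simp only [Finset.mem_Ioc]
    constructor
    · rintro ⟨⟨a1, a2⟩, a3, a4⟩
      have hu : 0 < u := by omega
      rw [Nat.le_div_iff_mul_le hu] at a4
      have : v ≤ r := by
        by_contra h
        push Not at h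
        nlinarith
      refine ⟨⟨a1, ?_⟩, a3, this⟩
      rw [Nat.le_div_iff_mul_le a3]
      linarith [mul_comm u v]
    · rintro ⟨⟨a1, a2⟩, a3, a4⟩
      have hu : 0 < u := by omega
      rw [Nat.le_div_iff_mul_le a3] at a2
      refine ⟨⟨a1, ?_⟩, a3, ?_⟩
      · nlinarith
      · rw [Nat.le_div_iff_mul_le hu]
        linarith [mul_comm u v]
  have h4 : ∑ v ∈ Ioc 0 r, ∑ u ∈ Ioc r (n / v), g (u * v) =
      ∑ u ∈ Ioc 0 r, ∑ v ∈ Ioc 0 (n / u), g (u * v) -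
        ∑ u ∈ Ioc 0 r, ∑ v ∈ Ioc 0 r, g (u * v) := by
    rw [← Finset.sum_sub_distrib]
    refine Finset.sum_congr rfl fun v hv => ?_
    have hv' := Finset.mem_Ioc.1 hv
    have hr : r ≤ n / v := by
      rw [Nat.le_div_iff_mul_le hv'.1]
      nlinarith
    rw [← Finset.sum_Ioc_consecutive _ (Nat.zero_le r) hr]
    have e : ∀ u, g (u * v) = g (v * u) := fun u => by rw [mul_comm]
    simp only [e]
    ring
  rw [h3, h4]
  ring

/-- divisor sum -/
def W (n : ℕ) : ℝ := ∑ k ∈ Ioc 0 n, ((Nat.divisors k).card : ℝ)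

theorem W_eq (n : ℕ) : W n = ∑ u ∈ Ioc 0 n, ((n / u : ℕ) : ℝ) := by
  have := sum_div (fun _ => 1) n
  have h2 : ((W n : ℝ) : ℂ) = ((∑ u ∈ Ioc 0 n, ((n / u : ℕ) : ℝ) : ℝ) : ℂ) := by
    unfold W
    push_cast
    simpa using this
  exact_mod_cast h2

theorem W_hyper (n r : ℕ) (h1 : r * r ≤ n) (h2 : n < (r + 1) * (r + 1)) :
    W n = 2 * ∑ u ∈ Ioc 0 r, ((n / u : ℕ) : ℝ) - r * r := by
  have := hyper (fun _ => 1) n r h1 h2
  have h2 : ((W n : ℝ) : ℂ) = ((2 * ∑ u ∈ Ioc 0 r, ((n / u : ℕ) : ℝ) - r * r : ℝ) : ℂ) := by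
    unfold W
    push_cast
    simpa using this
  exact_mod_cast h2

theorem W_mono (n : ℕ) : W n ≤ W (n + 1) := by
  unfold W
  refine Finset.sum_le_sum_of_subset_of_nonneg ?_ fun i _ _ => Nat.cast_nonneg _
  intro x hx
  simp only [Finset.mem_Ioc] at *
  omega

theorem W_ge (n : ℕ) : (n : ℝ) ≤ W n := by
  rw [W_eq]
  calc (n : ℝ) = ∑ u ∈ Ioc 0 n, (1 : ℝ) := by simp
    _ ≤ _ := by
      refine Finset.sum_le_sum fun u hu => ?_
      have hu' := Finset.mem_Ioc.1 hu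
      have : 1 ≤ n / u := (Nat.le_div_iff_mul_le hu'.1).2 (by omega)
      exact_mod_cast this

theorem W_pos (n : ℕ) (hn : 1 ≤ n) : 0 < W n := by
  have := W_ge n
  have h : (1 : ℝ) ≤ n := by exact_mod_cast hn
  linarith

theorem W_two (n : ℕ) : 2 * W n ≤ W (2 * n) := by
  rw [W_eq, W_eq, Finset.mul_sum]
  calc ∑ u ∈ Ioc 0 n, 2 * ((n / u : ℕ) : ℝ) ≤ ∑ u ∈ Ioc 0 n, ((2 * n / u : ℕ) : ℝ) := by
        refine Finset.sum_le_sum fun u hu => ?_
        have : 2 * (n / u) ≤ 2 * n / u := Nat.mul_div_le_mul_div_assoc 2 n u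
        exact_mod_cast this
    _ ≤ _ := by
        refine Finset.sum_le_sum_of_subset_of_nonneg ?_ fun i _ _ => Nat.cast_nonneg _
        intro x hx
        simp only [Finset.mem_Ioc] at *
        omega

theorem W_four (n : ℕ) : W (2 * n) ≤ 4 * W n := by
  have h1 : W (2 * n) ≤ 2 * W n + 2 * n := by
    rw [W_eq, W_eq]
    have h2 : ∑ u ∈ Ioc 0 (2 * n), ((n / u : ℕ) : ℝ) = ∑ u ∈ Ioc 0 n, ((n / u : ℕ) : ℝ) := by
      symm
      refine Finset.sum_subset ?_ ?_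
      · intro x hx
        simp only [Finset.mem_Ioc] at *
        omega
      · intro x hx hx'
        simp only [Finset.mem_Ioc] at *
        have : n / x = 0 := Nat.div_eq_of_lt (by omega)
        rw [this]; simp
    rw [← h2]
    have h3 : ∑ u ∈ Ioc 0 (2 * n), ((2 * n / u : ℕ) : ℝ) ≤
        ∑ u ∈ Ioc 0 (2 * n), (2 * ((n / u : ℕ) : ℝ) + 1) := by
      refine Finset.sum_le_sum fun u hu => ?_
      have hu' := Finset.mem_Ioc.1 hu
      have : 2 * n / u ≤ 2 * (n / u) + 1 := by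
        have h5 : 2 * n / u < 2 * (n / u) + 2 := by
          rw [Nat.div_lt_iff_lt_mul hu'.1]
          have := Nat.lt_div_mul_add hu'.1 (a := n)
          nlinarith
        omega
      exact_mod_cast this
    rw [Finset.sum_add_distrib, ← Finset.mul_sum] at h3
    simpa using h3
  have := W_ge n
  linarith

end X112.SQ
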