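import Pool.Agent.X112.SQ.A
import Pool.Agent.X112.SQ.C1

set_option autoImplicit false

noncomputable section

namespace X112.SQ

open Finset

/-- geometric sum -/
def G (α : ℝ) (N : ℕ) : ℂ := ∑ v ∈ Ioc 0 N, ee (v * α)

/-- harmonic numbers -/
def H (n : ℕ) : ℝ := ∑ i ∈ range n, ((i : ℝ) + 1)⁻¹

theorem H_eq (n : ℕ) : H n = ((harmonic n : ℚ) : ℝ) := by
  unfold H harmonic
  push_cast
  rfl

theorem ee_norm (t : ℝ) : ‖ee t‖ = 1 := by
  unfold ee
  rw [show (2 * Real.pi * Complex.I * t : ℂ) = ((2 * Real.pi * t : ℝ) : ℂ) * Complex.I by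
    push_cast; ring]
  exact Complex.norm_exp_ofReal_mul_I _

theorem ee_add (s t : ℝ) : ee (s + t) = ee s * ee t := by
  unfold ee
  rw [← Complex.exp_add]
  congr 1
  push_cast
  ring

theorem ee_int (z : ℤ) : ee z = 1 := by
  unfold ee
  rw [show (2 * Real.pi * Complex.I * ((z : ℝ) : ℂ) : ℂ) = z * (2 * Real.pi * Complex.I) by
    push_cast; ring]
  exact Complex.exp_int_mul_two_pi_mul_I z

theorem ee_sub_one (t : ℝ) (h : |t| ≤ 1 / 2) : 4 * |t| ≤ ‖ee t - 1‖ := by
  unfold ee
  rw [show (2 * Real.pi * Complex.I * t : ℂ) = Complex.I * ((2 * Real.pi * t : ℝ) : ℂ) by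
    push_cast; ring, Complex.norm_exp_I_mul_ofReal_sub_one, norm_mul]
  simp only [Real.norm_eq_abs, Nat.abs_ofNat]
  have h1 : |Real.sin (2 * Real.pi * t / 2)| = Real.sin (Real.pi * |t|) := by
    rw [show 2 * Real.pi * t / 2 = Real.pi * t by ring]
    rcases le_total 0 t with h0 | h0
    · rw [abs_of_nonneg h0] at h ⊢
      rw [abs_of_nonneg]
      apply Real.sin_nonneg_of_nonneg_of_le_pi
      · positivity
      · nlinarith [Real.pi_pos]
    · rw [abs_of_nonpos h0] at h ⊢
      rw [show Real.pi * -t = -(Real.pi * t) by ring, Real.sin_neg, abs_of_nonpos]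
      apply Real.sin_nonpos_of_nonpos_of_neg_pi_le
      · nlinarith [Real.pi_pos]
      · nlinarith [Real.pi_pos]
  rw [h1]
  have h2 := Real.mul_le_sin (x := Real.pi * |t|) (by positivity) (by nlinarith [Real.pi_pos])
  have h3 : 2 / Real.pi * (Real.pi * |t|) = 2 * |t| := by
    field_simp
  rw [h3] at h2
  linarith

theorem ee_sub_one_le (t : ℝ) : ‖ee t - 1‖ ≤ 2 * Real.pi * |t| := by
  unfold ee
  rw [show (2 * Real.pi * Complex.I * t : ℂ) = Complex.I * ((2 * Real.pi * t : ℝ) : ℂ) by
    push_cast; ring]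
  refine Real.norm_exp_I_mul_ofReal_sub_one_le.trans ?_
  rw [Real.norm_eq_abs, abs_mul, abs_of_pos (by positivity : 0 < 2 * Real.pi)]

theorem G_le (α : ℝ) (N : ℕ) : ‖G α N‖ ≤ N := by
  unfold G
  refine (norm_sum_le _ _).trans ?_
  simp [ee_norm]

theorem G_congr (α β : ℝ) (z : ℤ) (h : α = β + z) (N : ℕ) : G α N = G β N := by
  unfold G
  refine Finset.sum_congr rfl fun v _ => ?_
  rw [h, show (v : ℝ) * (β + z) = v * β + ((v * z : ℤ) : ℝ) by push_cast; ring, ee_add, ee_int,
    mul_one]

theorem G_geom (α : ℝ) (N : ℕ) : G α N * (ee α - 1) = ee ((N + 1) * α) - ee α := by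
  induction N with
  | zero => simp [G]
  | succ N ih =>
    have : G α (N + 1) = G α N + ee ((N + 1 : ℕ) * α) := by
      unfold G
      rw [Finset.sum_Ioc_succ_top (Nat.zero_le N)]
    rw [this, add_mul, ih]
    have e1 : ee (((N + 1 : ℕ) + 1 : ℝ) * α) = ee ((N + 1 : ℕ) * α) * ee α := by
      rw [← ee_add]
      congr 1
      ring
    rw [e1]
    push_cast
    ring

theorem G_small (α : ℝ) (N : ℕ) (h : |α| ≤ 1 / 2) : ‖G α N‖ * |α| ≤ 1 / 2 := by
  have h1 : ‖G α N‖ * ‖ee α - 1‖ ≤ 2 := by
    rw [← norm_mul, G_geom]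
    refine (norm_sub_le _ _).trans ?_
    rw [ee_norm, ee_norm]
    norm_num
  have h2 := ee_sub_one α h
  nlinarith [norm_nonneg (G α N)]

theorem G_dist (α δ : ℝ) (N : ℕ) (hδ : 0 < δ) (h : ∀ z : ℤ, δ ≤ |α - z|) :
    ‖G α N‖ ≤ 1 / (2 * δ) := by
  have h1 : G α N = G (α - round α) N := G_congr _ _ (round α) (by ring) N
  have h2 := G_small (α - round α) N (abs_sub_round α)
  have h3 := h (round α)
  rw [h1, le_div_iff₀ (by positivity)]
  nlinarith [norm_nonneg (G (α - round α) N)]

theorem G_sub_nat (α : ℝ) (N : ℕ) : ‖G α N - N‖ ≤ 2 * Real.pi * |α| * (N : ℝ) ^ 2 := by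
  have h1 : G α N - N = ∑ v ∈ Ioc 0 N, (ee (v * α) - 1) := by
    unfold G
    rw [Finset.sum_sub_distrib]
    simp
  rw [h1]
  refine (norm_sum_le _ _).trans ?_
  calc ∑ v ∈ Ioc 0 N, ‖ee (v * α) - 1‖ ≤ ∑ v ∈ Ioc 0 N, 2 * Real.pi * |α| * N := by
        refine Finset.sum_le_sum fun v hv => ?_
        refine (ee_sub_one_le _).trans ?_
        have hv' := Finset.mem_Ioc.1 hv
        have : (v : ℝ) ≤ N := by exact_mod_cast hv'.2
        rw [abs_mul, Nat.abs_cast]
        have h0 : 0 ≤ 2 * Real.pi * |α| := by positivity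
        nlinarith
    _ = _ := by
        rw [Finset.sum_const, Nat.card_Ioc, nsmul_eq_mul, Nat.sub_zero]
        ring

/-- the weight of a residue -/
def phi (q a : ℕ) : ℝ := q * ((a : ℝ)⁻¹ + ((q - a : ℕ) : ℝ)⁻¹)

theorem phi_nonneg (q a : ℕ) : 0 ≤ phi q a := by
  unfold phi
  positivity

theorem H_mono {a b : ℕ} (h : a ≤ b) : H a ≤ H b := by
  unfold H
  refine Finset.sum_le_sum_of_subset_of_nonneg (Finset.range_mono h) fun i _ _ => by positivity

theorem phi_sum (q : ℕ) : ∑ a ∈ range q, phi q a ≤ 2 * q * H q := by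
  unfold phi
  rw [← Finset.mul_sum, Finset.sum_add_distrib]
  have h1 : ∑ a ∈ range q, (a : ℝ)⁻¹ ≤ H q := by
    calc ∑ a ∈ range q, (a : ℝ)⁻¹ ≤ ∑ a ∈ range (q + 1), (a : ℝ)⁻¹ := by
          rw [Finset.sum_range_succ]
          have : (0 : ℝ) ≤ (q : ℝ)⁻¹ := by positivity
          linarith
      _ = H q := by
          rw [Finset.sum_range_succ']
          unfold H
          push_cast
          simp
  have h2 : ∑ a ∈ range q, ((q - a : ℕ) : ℝ)⁻¹ = H q := by
    unfold H
    rw [← Finset.sum_range_reflect]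
    refine Finset.sum_congr rfl fun a ha => ?_
    have := Finset.mem_range.1 ha
    have h3 : q - (q - 1 - a) = a + 1 := by omega
    rw [h3]
    push_cast
    rfl
  rw [h2]
  have : (0 : ℝ) ≤ q := Nat.cast_nonneg q
  nlinarith

theorem per_sum (q m : ℕ) (F : ℕ → ℝ) (hF : ∀ u, F (u + q) = F u) :
    ∑ u ∈ range (m * q), F u = m * ∑ u ∈ range q, F u := by
  induction m with
  | zero => simp
  | succ m ih =>
    have hper : ∀ (m u : ℕ), F (m * q + u) = F u := by
      intro m
      induction m with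
      | zero => intro u; simp
      | succ m ih => intro u; rw [show (m + 1) * q + u = (m * q + u) + q by ring, hF, ih]
    rw [show (m + 1) * q = m * q + q by ring, Finset.sum_range_add, ih]
    simp only [hper]
    push_cast
    ring

theorem minor (p : ℤ) (q : ℕ) (hq : 0 < q) (hpq : IsUnit (p : ZMod q)) (θ : ℝ) (r : ℕ)
    (hβ : |θ - p / q| * r ≤ 1 / (2 * q)) (n : ℕ) :
    ‖∑ u ∈ (Ioc 0 r).filter (fun u => ¬ q ∣ u), (2 * G (u * θ) (n / u) - G (u * θ) r)‖ ≤
      6 * (r + q) * H q := by
  have : NeZero q := ⟨hq.ne'⟩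
  have hq0 : (0 : ℝ) < q := by exact_mod_cast hq
  let v : ℕ → ℕ := fun u => ((u : ZMod q) * (p : ZMod q)).val
  have hG : ∀ u ∈ (Ioc 0 r).filter (fun u => ¬ q ∣ u), ∀ N, ‖G (u * θ) N‖ ≤ phi q (v u) := by
    intro u hu N
    obtain ⟨hu1, hu2⟩ := Finset.mem_filter.1 hu
    have hu1' := Finset.mem_Ioc.1 hu1
    have hv0 : v u ≠ 0 := by
      intro h
      have h1 : (u : ZMod q) * (p : ZMod q) = 0 := (ZMod.val_eq_zero _).1 h
      have h2 : (u : ZMod q) = 0 := (IsUnit.mul_left_eq_zero hpq).1 h1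
      exact hu2 ((ZMod.natCast_eq_zero_iff u q).1 h2)
    have hvq : v u < q := ZMod.val_lt _
    have hcong : ∃ m : ℤ, (u : ℤ) * p = v u + q * m := by
      have h1 : (((u : ℤ) * p : ℤ) : ZMod q) = ((v u : ℤ) : ZMod q) := by
        push_cast
        rw [ZMod.natCast_val, ZMod.cast_id']
        rfl
      have h2 := (ZMod.intCast_eq_intCast_iff_dvd_sub _ _ q).1 h1.symm
      obtain ⟨m, hm⟩ := h2
      exact ⟨m, by linarith⟩
    obtain ⟨m, hm⟩ := hcong
    have hmR : (u : ℝ) * p = v u + q * m := by exact_mod_cast hm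
    have key : ∀ t : ℝ, 1 ≤ t → (t ≤ v u) → (t ≤ q - v u) → ‖G (u * θ) N‖ ≤ q / t := by
      intro t ht1 ht2 ht3
      have h1 : ∀ z : ℤ, t / (2 * q) ≤ |(u : ℝ) * θ - z| := by
        intro z
        have h2 : (u : ℝ) * θ - z = (v u + q * (m - z)) / q + u * (θ - p / q) := by
          field_simp
          linarith
        have h3 : |(u : ℝ) * (θ - p / q)| ≤ 1 / (2 * q) := by
          rw [abs_mul, Nat.abs_cast]
          have : (u : ℝ) ≤ r := by exact_mod_cast hu1'.2
          nlinarith [abs_nonneg (θ - p / q)]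
        have h4 : t ≤ |(v u : ℝ) + q * (m - z)| := by
          rcases le_or_gt 0 (m - z) with h | h
          · have : (0 : ℝ) ≤ (m : ℝ) - z := by exact_mod_cast h
            refine le_trans ?_ (le_abs_self _)
            nlinarith
          · have : (m : ℝ) - z ≤ -1 := by
              have : m - z ≤ -1 := by omega
              exact_mod_cast this
            refine le_trans ?_ (neg_le_abs _)
            nlinarith
        have h5 : t / q ≤ |((v u : ℝ) + q * (m - z)) / q| := by
          rw [abs_div, abs_of_pos hq0]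
          gcongr
        rw [h2]
        have h6 := abs_sub_abs_le_abs_sub (((v u : ℝ) + q * (m - z)) / q) (-(u * (θ - p / q)))
        rw [abs_neg, sub_neg_eq_add] at h6
        have h7 : t / q - 1 / (2 * q) ≥ t / (2 * q) := by
          rw [ge_iff_le, div_sub_div _ _ (by positivity) (by positivity), div_le_div_iff₀ (by positivity) (by positivity)]
          have : 0 ≤ (t - 1) * (2 * (q : ℝ) * q) := by
            apply mul_nonneg (by linarith) (by positivity)
          nlinarith
        linarith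
      refine (G_dist _ _ N (by positivity) h1).trans (le_of_eq ?_)
      field_simp
    have hv1 : (1 : ℝ) ≤ v u := by exact_mod_cast Nat.one_le_iff_ne_zero.2 hv0
    have hv2 : (1 : ℝ) ≤ q - v u := by
      have : v u + 1 ≤ q := hvq
      have : ((v u + 1 : ℕ) : ℝ) ≤ q := by exact_mod_cast this
      push_cast at this
      linarith
    have hcast : ((q - v u : ℕ) : ℝ) = q - v u := by
      rw [Nat.cast_sub hvq.le]
    unfold phi
    rw [hcast]
    rcases le_total (v u : ℝ) (q - v u) with h | h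
    · refine (key _ hv1 le_rfl h).trans ?_
      rw [mul_add, div_eq_mul_inv]
      have : (0 : ℝ) ≤ q * ((q : ℝ) - v u)⁻¹ := by positivity
      linarith
    · refine (key _ hv2 h le_rfl).trans ?_
      rw [mul_add, div_eq_mul_inv]
      have : (0 : ℝ) ≤ q * (v u : ℝ)⁻¹ := by positivity
      linarith
  refine (norm_sum_le _ _).trans ?_
  calc ∑ u ∈ (Ioc 0 r).filter (fun u => ¬ q ∣ u), ‖2 * G (u * θ) (n / u) - G (u * θ) r‖
      ≤ ∑ u ∈ (Ioc 0 r).filter (fun u => ¬ q ∣ u), 3 * phi q (v u) := by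
        refine Finset.sum_le_sum fun u hu => ?_
        refine (norm_sub_le _ _).trans ?_
        rw [norm_mul]
        have h1 := hG u hu (n / u)
        have h2 := hG u hu r
        simp only [Complex.norm_ofNat]
        linarith
    _ ≤ ∑ u ∈ range ((r / q + 1) * q), 3 * phi q (v u) := by
        refine Finset.sum_le_sum_of_subset_of_nonneg ?_ fun i _ _ => by
          have := phi_nonneg q (v i)
          positivity
        intro u hu
        obtain ⟨hu1, _⟩ := Finset.mem_filter.1 hu
        have hu1' := Finset.mem_Ioc.1 hu1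
        have := Nat.lt_div_mul_add hq (a := r)
        rw [Finset.mem_range]
        nlinarith
    _ = 3 * ((r / q + 1 : ℕ) * ∑ u ∈ range q, phi q (v u)) := by
        rw [← Finset.mul_sum, per_sum q (r / q + 1) (fun u => phi q (v u))]
        intro u
        show phi q (((u + q : ℕ) : ZMod q) * (p : ZMod q)).val = phi q ((u : ZMod q) * (p : ZMod q)).val
        simp
    _ = 3 * ((r / q + 1 : ℕ) * ∑ a ∈ range q, phi q a) := by
        congr 2
        have e1 : ∑ u ∈ range q, phi q (v u) = ∑ x : ZMod q, phi q (x * (p : ZMod q)).val := by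
          refine Finset.sum_nbij' (fun u => (u : ZMod q)) (fun x => x.val) ?_ ?_ ?_ ?_ ?_
          · intro u _; exact Finset.mem_univ _
          · intro x _; exact Finset.mem_range.2 (ZMod.val_lt x)
          · intro u hu; exact ZMod.val_natCast_of_lt (Finset.mem_range.1 hu)
          · intro x _; exact ZMod.natCast_zmod_val x
          · intro u _; rfl
        have e2 : ∑ a ∈ range q, phi q a = ∑ x : ZMod q, phi q x.val := by
          refine Finset.sum_nbij' (fun u => (u : ZMod q)) (fun x => x.val) ?_ ?_ ?_ ?_ ?_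
          · intro u _; exact Finset.mem_univ _
          · intro x _; exact Finset.mem_range.2 (ZMod.val_lt x)
          · intro u hu; exact ZMod.val_natCast_of_lt (Finset.mem_range.1 hu)
          · intro x _; exact ZMod.natCast_zmod_val x
          · intro u hu
            rw [ZMod.val_natCast_of_lt (Finset.mem_range.1 hu)]
        rw [e1, e2]
        obtain ⟨w, hw⟩ := hpq
        rw [← hw]
        exact Equiv.sum_comp (Units.mulRight w) (fun x : ZMod q => phi q x.val)
    _ ≤ 3 * ((r / q + 1 : ℕ) * (2 * q * H q)) := by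
        have := phi_sum q
        gcongr
    _ ≤ 6 * (r + q) * H q := by
        have h1 : ((r / q : ℕ) : ℝ) * q ≤ r := by
          have := Nat.div_mul_le_self r q
          exact_mod_cast this
        have h2 : 0 ≤ H q := by unfold H; positivity
        push_cast
        nlinarith

end X112.SQ
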