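import Pool.Agent.X112.SQ.C2

set_option autoImplicit false

noncomputable section

namespace X112.SQ

open Finset

theorem H_Ioc (m : ℕ) : H m = ∑ w ∈ Ioc 0 m, ((w : ℝ))⁻¹ := by
  unfold H
  induction m with
  | zero => simp
  | succ m ih => rw [Finset.sum_range_succ, ih, Finset.sum_Ioc_succ_top (Nat.zero_le m)]; push_cast; rfl

theorem H_nonneg (m : ℕ) : 0 ≤ H m := by unfold H; positivity

theorem H_one_le (m : ℕ) (h : 1 ≤ m) : 1 ≤ H m := by
  have := H_mono h
  have h1 : H 1 = 1 := by simp [H]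
  linarith

/-- main term -/
def M (n r q : ℕ) (β : ℝ) : ℂ :=
  ∑ w ∈ Ioc 0 (r / q), (2 * G (q * w * β) (n / (q * w)) - G (q * w * β) r)

theorem split (g : ℕ → ℂ) (r q : ℕ) (hq : 0 < q) :
    ∑ u ∈ Ioc 0 r, g u = ∑ w ∈ Ioc 0 (r / q), g (q * w) +
      ∑ u ∈ (Ioc 0 r).filter (fun u => ¬ q ∣ u), g u := by
  rw [← Finset.sum_filter_add_sum_filter_not (Ioc 0 r) (fun u => q ∣ u)]
  congr 1
  symm
  refine Finset.sum_bij (fun w _ => q * w) ?_ ?_ ?_ ?_
  · intro v hv
    have hv' := Finset.mem_Ioc.1 hv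
    simp only [Finset.mem_filter, Finset.mem_Ioc]
    refine ⟨⟨Nat.mul_pos hq hv'.1, ?_⟩, dvd_mul_right _ _⟩
    have := (Nat.le_div_iff_mul_le hq).1 hv'.2
    linarith [mul_comm q v]
  · intro a _ b _ h
    exact Nat.eq_of_mul_eq_mul_left hq h
  · intro k hk
    simp only [Finset.mem_filter, Finset.mem_Ioc] at hk
    obtain ⟨⟨hk1, hk2⟩, c, rfl⟩ := hk
    refine ⟨c, ?_, rfl⟩
    simp only [Finset.mem_Ioc]
    refine ⟨Nat.pos_of_mul_pos_left hk1 |> fun h => h, ?_⟩
    rw [Nat.le_div_iff_mul_le hq]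
    linarith [mul_comm q c]
  · intro v _
    rfl

/-- divisor exponential sum -/
def D (n : ℕ) (θ : ℝ) : ℂ := ∑ k ∈ Ioc 0 n, ((Nat.divisors k).card : ℂ) * ee (k * θ)

theorem D_main (p : ℤ) (q : ℕ) (hq : 0 < q) (hpq : IsUnit (p : ZMod q)) (θ : ℝ) (n r : ℕ)
    (h1 : r * r ≤ n) (h2 : n < (r + 1) * (r + 1))
    (hβ : |θ - p / q| * r ≤ 1 / (2 * q)) :
    ‖D n θ - M n r q (θ - p / q)‖ ≤ 6 * (r + q) * H q := by
  have hq0 : (0 : ℝ) < q := by exact_mod_cast hq
  have e1 : D n θ = ∑ u ∈ Ioc 0 r, (2 * G (u * θ) (n / u) - G (u * θ) r) := by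
    unfold D
    rw [hyper (fun k => ee (k * θ)) n r h1 h2, Finset.sum_sub_distrib, ← Finset.mul_sum]
    unfold G
    congr 2
    · refine Finset.sum_congr rfl fun u _ => Finset.sum_congr rfl fun v _ => ?_
      congr 1
      push_cast
      ring
    · funext u
      refine Finset.sum_congr rfl fun v _ => ?_
      congr 1
      push_cast
      ring
  rw [e1, split _ r q hq]
  have e2 : ∑ w ∈ Ioc 0 (r / q), (2 * G (((q * w : ℕ) : ℝ) * θ) (n / (q * w)) -
      G (((q * w : ℕ) : ℝ) * θ) r) = M n r q (θ - p / q) := by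
    unfold M
    refine Finset.sum_congr rfl fun w _ => ?_
    have e3 : ∀ N, G (((q * w : ℕ) : ℝ) * θ) N = G (q * w * (θ - p / q)) N := by
      intro N
      refine G_congr _ _ (w * p) ?_ N
      push_cast
      field_simp
      ring
    rw [e3, e3]
  rw [e2, add_sub_cancel_left]
  exact minor p q hq hpq θ r hβ n

theorem M_bound (n r q : ℕ) (hq : 0 < q) (h1 : r * r ≤ n) (β B : ℝ)
    (hB : ∀ w ∈ Ioc 0 (r / q), ∀ N : ℕ, (N : ℝ) ≤ n / (q * w) →
      ‖G (q * w * β) N‖ ≤ B * (w : ℝ)⁻¹) (hB0 : 0 ≤ B) :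
    ‖M n r q β‖ ≤ 3 * B * H r := by
  have hq0 : (0 : ℝ) < q := by exact_mod_cast hq
  unfold M
  refine (norm_sum_le _ _).trans ?_
  calc ∑ w ∈ Ioc 0 (r / q), ‖2 * G (q * w * β) (n / (q * w)) - G (q * w * β) r‖
      ≤ ∑ w ∈ Ioc 0 (r / q), 3 * B * (w : ℝ)⁻¹ := by
        refine Finset.sum_le_sum fun w hw => ?_
        have hw' := Finset.mem_Ioc.1 hw
        have hw0 : (0 : ℝ) < w := by exact_mod_cast hw'.1
        have hqw : q * w ≤ r := by
          have := (Nat.le_div_iff_mul_le hq).1 hw'.2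
          linarith [mul_comm q w]
        refine (norm_sub_le _ _).trans ?_
        rw [norm_mul]
        have a1 := hB w hw (n / (q * w)) (by
          have := @Nat.cast_div_le ℝ _ _ _ n (q * w)
          push_cast at this
          exact this)
        have a2 := hB w hw r (by
          rw [le_div_iff₀ (by positivity)]
          have : r * (q * w) ≤ n := by nlinarith
          exact_mod_cast this)
        simp only [Complex.norm_ofNat]
        linarith
    _ = 3 * B * H (r / q) := by rw [← Finset.mul_sum, H_Ioc]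
    _ ≤ 3 * B * H r := by
        have := H_mono (Nat.div_le_self r q)
        gcongr

theorem M_le (n r q : ℕ) (hq : 0 < q) (h1 : r * r ≤ n) (β : ℝ) :
    ‖M n r q β‖ ≤ 3 * (n / q) * H r := by
  have hq0 : (0 : ℝ) < q := by exact_mod_cast hq
  refine M_bound n r q hq h1 β (n / q) ?_ (by positivity)
  intro w hw N hN
  refine (G_le _ _).trans (hN.trans (le_of_eq ?_))
  have hw' := Finset.mem_Ioc.1 hw
  have hw0 : (0 : ℝ) < w := by exact_mod_cast hw'.1
  field_simp

theorem M_le' (n r q : ℕ) (hq : 0 < q) (h1 : r * r ≤ n) (β : ℝ) (hβ : |β| * r ≤ 1 / 2)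
    (hβ0 : β ≠ 0) :
    ‖M n r q β‖ ≤ 3 * (1 / (2 * q * |β|)) * H r := by
  have hq0 : (0 : ℝ) < q := by exact_mod_cast hq
  have hb : 0 < |β| := abs_pos.2 hβ0
  refine M_bound n r q hq h1 β (1 / (2 * q * |β|)) ?_ (by positivity)
  intro w hw N hN
  have hw' := Finset.mem_Ioc.1 hw
  have hw0 : (0 : ℝ) < w := by exact_mod_cast hw'.1
  have hqw : q * w ≤ r := by
    have := (Nat.le_div_iff_mul_le hq).1 hw'.2
    linarith [mul_comm q w]
  have hqwR : (q : ℝ) * w ≤ r := by exact_mod_cast hqw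
  have e1 : |(q : ℝ) * w * β| = q * w * |β| := by
    rw [abs_mul, abs_of_pos (by positivity)]
  have := G_small (q * w * β) N (by rw [e1]; nlinarith)
  rw [e1] at this
  rw [← div_eq_mul_inv, le_div_iff₀ hw0, le_div_iff₀ (by positivity)]
  nlinarith

theorem M_sub (n r q : ℕ) (hq : 0 < q) (h1 : r * r ≤ n) (β : ℝ) :
    ‖M n r q β - M n r q 0‖ ≤ 3 * (2 * Real.pi * |β| * n ^ 2 / q) * H r := by
  have hq0 : (0 : ℝ) < q := by exact_mod_cast hq
  unfold M
  rw [← Finset.sum_sub_distrib]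
  refine (norm_sum_le _ _).trans ?_
  have key : ∀ w ∈ Ioc 0 (r / q), ∀ N : ℕ, (N : ℝ) ≤ n / (q * w) →
      ‖G (q * w * β) N - G (q * w * 0) N‖ ≤ (2 * Real.pi * |β| * n ^ 2 / q) * (w : ℝ)⁻¹ := by
    intro w hw N hN
    have hw' := Finset.mem_Ioc.1 hw
    have hw0 : (0 : ℝ) < w := by exact_mod_cast hw'.1
    have e0 : G (q * w * 0) N = N := by
      unfold G ee
      simp
    rw [e0]
    refine (G_sub_nat _ _).trans ?_
    have e1 : |(q : ℝ) * w * β| = q * w * |β| := by
      rw [abs_mul, abs_of_pos (by positivity)]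
    rw [e1]
    have hN2 : (N : ℝ) ^ 2 ≤ (n / (q * w)) ^ 2 := by gcongr
    calc 2 * Real.pi * (q * w * |β|) * (N : ℝ) ^ 2
        ≤ 2 * Real.pi * (q * w * |β|) * (n / (q * w)) ^ 2 := by gcongr
      _ = _ := by field_simp
  calc ∑ w ∈ Ioc 0 (r / q), ‖2 * G (q * w * β) (n / (q * w)) - G (q * w * β) r -
        (2 * G (q * w * 0) (n / (q * w)) - G (q * w * 0) r)‖
      ≤ ∑ w ∈ Ioc 0 (r / q), 3 * (2 * Real.pi * |β| * n ^ 2 / q) * (w : ℝ)⁻¹ := by
        refine Finset.sum_le_sum fun w hw => ?_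
        have hw' := Finset.mem_Ioc.1 hw
        have hw0 : (0 : ℝ) < w := by exact_mod_cast hw'.1
        have hqw : q * w ≤ r := by
          have := (Nat.le_div_iff_mul_le hq).1 hw'.2
          linarith [mul_comm q w]
        rw [show 2 * G (q * w * β) (n / (q * w)) - G (q * w * β) r -
          (2 * G (q * w * 0) (n / (q * w)) - G (q * w * 0) r) =
          2 * (G (q * w * β) (n / (q * w)) - G (q * w * 0) (n / (q * w))) -
            (G (q * w * β) r - G (q * w * 0) r) by ring]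
        refine (norm_sub_le _ _).trans ?_
        rw [norm_mul]
        have a1 := key w hw (n / (q * w)) (by
          have := @Nat.cast_div_le ℝ _ _ _ n (q * w)
          push_cast at this
          exact this)
        have a2 := key w hw r (by
          rw [le_div_iff₀ (by positivity)]
          have : r * (q * w) ≤ n := by nlinarith
          exact_mod_cast this)
        simp only [Complex.norm_ofNat]
        linarith
    _ = 3 * (2 * Real.pi * |β| * n ^ 2 / q) * H (r / q) := by rw [← Finset.mul_sum, H_Ioc]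
    _ ≤ _ := by
        have := H_mono (Nat.div_le_self r q)
        gcongr

/-- main term at `β = 0` -/
def M0 (n r q : ℕ) : ℝ := 2 * ∑ w ∈ Ioc 0 (r / q), ((n / (q * w) : ℕ) : ℝ) - (r / q : ℕ) * r

theorem M_zero (n r q : ℕ) : M n r q 0 = M0 n r q := by
  unfold M M0
  have e0 : ∀ (x : ℝ) (N : ℕ), G (x * 0) N = N := by
    intro x N
    unfold G ee
    simp
  simp only [e0]
  rw [Finset.sum_sub_distrib, ← Finset.mul_sum]
  push_cast
  simp

theorem W_M0 (n r : ℕ) (h1 : r * r ≤ n) (h2 : n < (r + 1) * (r + 1)) : W n = M0 n r 1 := by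
  rw [W_hyper n r h1 h2]
  unfold M0
  simp

theorem H_log (r q : ℕ) (hq : 0 < q) (hr : q ≤ r) :
    |H r - H (r / q) - Real.log q| ≤ 4 * (q / r) := by
  have hq0 : (0 : ℝ) < q := by exact_mod_cast hq
  have hr0 : (0 : ℝ) < r := by exact_mod_cast (lt_of_lt_of_le hq hr)
  have hqr : (q : ℝ) ≤ r := by exact_mod_cast hr
  have b : ∀ m : ℕ, 0 < m → Real.log m + Real.eulerMascheroniConstant ≤ H m ∧
      H m ≤ Real.log m + Real.eulerMascheroniConstant + (m : ℝ)⁻¹ := by
    intro m hm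
    have hm0 : (0 : ℝ) < m := by exact_mod_cast hm
    have h1 := Real.eulerMascheroniSeq_lt_eulerMascheroniConstant m
    have h2 := Real.eulerMascheroniConstant_lt_eulerMascheroniSeq' m
    unfold Real.eulerMascheroniSeq at h1
    unfold Real.eulerMascheroniSeq' at h2
    rw [if_neg hm.ne'] at h2
    rw [H_eq]
    refine ⟨by linarith, ?_⟩
    have h3 : Real.log ((m : ℝ) + 1) ≤ Real.log m + (m : ℝ)⁻¹ := by
      have h4 := Real.add_one_le_exp ((m : ℝ)⁻¹)
      have h5 : Real.log (((m : ℝ) + 1) / m) ≤ (m : ℝ)⁻¹ := by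
        rw [Real.log_le_iff_le_exp (by positivity)]
        refine le_trans (le_of_eq ?_) h4
        field_simp
        ring
      rw [Real.log_div (by positivity) (by positivity)] at h5
      linarith
    linarith
  set m := r / q with hm
  have hm1 : 1 ≤ m := (Nat.le_div_iff_mul_le hq).2 (by omega)
  have hm0 : (0 : ℝ) < m := by exact_mod_cast hm1
  obtain ⟨b1, b2⟩ := b r (lt_of_lt_of_le hq hr)
  obtain ⟨b3, b4⟩ := b m hm1
  have hmq : (m : ℝ) * q ≤ r := by
    have := Nat.div_mul_le_self r q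
    exact_mod_cast this
  have hmq2 : (r : ℝ) ≤ (m + 1) * q := by
    have := (Nat.lt_div_mul_add hq (a := r)).le
    have : ((r : ℕ) : ℝ) ≤ ((r / q * q + q : ℕ) : ℝ) := by exact_mod_cast this
    push_cast at this
    nlinarith
  have c1 : Real.log m + Real.log q ≤ Real.log r := by
    rw [← Real.log_mul hm0.ne' hq0.ne']
    exact Real.log_le_log (by positivity) hmq
  have c2 : Real.log r ≤ Real.log m + Real.log q + (m : ℝ)⁻¹ := by
    have h4 := Real.add_one_le_exp ((m : ℝ)⁻¹)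
    have h5 : Real.log (((m : ℝ) + 1) / m) ≤ (m : ℝ)⁻¹ := by
      rw [Real.log_le_iff_le_exp (by positivity)]
      refine le_trans (le_of_eq ?_) h4
      field_simp
      ring
    rw [Real.log_div (by positivity) (by positivity)] at h5
    have h6 := Real.log_le_log hr0 hmq2
    rw [Real.log_mul (by positivity) (by positivity)] at h6
    linarith
  have c3 : (m : ℝ)⁻¹ ≤ 2 * (q / r) := by
    rw [inv_eq_one_div, ← mul_div_assoc, div_le_div_iff₀ hm0 hr0]
    have : (1 : ℝ) ≤ m := by exact_mod_cast hm1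
    nlinarith
  have c4 : (r : ℝ)⁻¹ ≤ 2 * (q / r) := by
    rw [inv_eq_one_div, ← mul_div_assoc, div_le_div_iff₀ hr0 hr0]
    have : (1 : ℝ) ≤ q := by exact_mod_cast hq
    nlinarith
  rw [abs_le]
  constructor <;> linarith

theorem M0_approx (n r q : ℕ) (hq : 0 < q) (hr : q ≤ r) (h1 : r * r ≤ n)
    (h2 : n < (r + 1) * (r + 1)) :
    |M0 n r q - n / q * (2 * H r - 1 - 2 * Real.log q)| ≤ 40 * r := by
  have hq0 : (0 : ℝ) < q := by exact_mod_cast hq
  have hq1 : (1 : ℝ) ≤ q := by exact_mod_cast hq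
  have hr0 : (0 : ℝ) < r := by exact_mod_cast (lt_of_lt_of_le hq hr)
  have hqr : (q : ℝ) ≤ r := by exact_mod_cast hr
  have hn1 : (r : ℝ) * r ≤ n := by exact_mod_cast h1
  have hn2 : (n : ℝ) ≤ r * r + 2 * r := by
    have : n ≤ r * r + 2 * r := by nlinarith
    exact_mod_cast this
  set m := r / q with hm
  have hmq : (m : ℝ) * q ≤ r := by
    have := Nat.div_mul_le_self r q
    exact_mod_cast this
  have hmq2 : (r : ℝ) ≤ (m + 1) * q := by
    have := (Nat.lt_div_mul_add hq (a := r)).le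
    have : ((r : ℕ) : ℝ) ≤ ((r / q * q + q : ℕ) : ℝ) := by exact_mod_cast this
    push_cast at this
    nlinarith
  have hmr : (m : ℝ) ≤ r := by exact_mod_cast Nat.div_le_self r q
  have e1 : ∑ w ∈ Ioc 0 m, ((n / (q * w) : ℕ) : ℝ) ≤ n / q * H m := by
    rw [H_Ioc, Finset.mul_sum]
    refine Finset.sum_le_sum fun w hw => ?_
    have hw' := Finset.mem_Ioc.1 hw
    have hw0 : (0 : ℝ) < w := by exact_mod_cast hw'.1
    have := @Nat.cast_div_le ℝ _ _ _ n (q * w)
    push_cast at this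
    refine this.trans (le_of_eq ?_)
    field_simp
  have e2 : n / q * H m - m ≤ ∑ w ∈ Ioc 0 m, ((n / (q * w) : ℕ) : ℝ) := by
    have : (n : ℝ) / q * H m - m = ∑ w ∈ Ioc 0 m, ((n : ℝ) / q * (w : ℝ)⁻¹ - 1) := by
      rw [Finset.sum_sub_distrib, H_Ioc, Finset.mul_sum]
      simp
    rw [this]
    refine Finset.sum_le_sum fun w hw => ?_
    have hw' := Finset.mem_Ioc.1 hw
    have hw0 : (0 : ℝ) < w := by exact_mod_cast hw'.1
    have hqw : 0 < q * w := Nat.mul_pos hq hw'.1
    have := (Nat.lt_div_mul_add hqw (a := n)).le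
    have h3 : ((n : ℕ) : ℝ) ≤ ((n / (q * w) * (q * w) + q * w : ℕ) : ℝ) := by exact_mod_cast this
    rw [Nat.cast_add, Nat.cast_mul] at h3
    have h4 : ((q * w : ℕ) : ℝ) = q * w := by push_cast; rfl
    rw [h4] at h3
    have h5 : (n : ℝ) / q * (w : ℝ)⁻¹ = n / (q * w) := by field_simp
    rw [h5, sub_le_iff_le_add, div_le_iff₀ (by positivity)]
    linarith
  have e3 := H_log r q hq hr
  rw [← hm, abs_le] at e3
  have e4 : (m : ℝ) * r ≤ n / q := by
    rw [le_div_iff₀ hq0]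
    nlinarith
  have e5 : (n : ℝ) / q - 3 * r ≤ m * r := by
    rw [sub_le_iff_le_add, div_le_iff₀ hq0]
    nlinarith
  have e6 : (n : ℝ) / q * (4 * (q / r)) ≤ 12 * r := by
    have : (n : ℝ) / q * (4 * (q / r)) = 4 * (n / r) := by field_simp
    rw [this]
    have h3 : (1 : ℝ) ≤ r := by linarith
    have : (n : ℝ) / r ≤ 3 * r := by
      rw [div_le_iff₀ hr0]
      nlinarith
    linarith
  have hnq : (0 : ℝ) ≤ n / q := by positivity
  have e7 := mul_le_mul_of_nonneg_left e3.1 hnq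
  have e8 := mul_le_mul_of_nonneg_left e3.2 hnq
  unfold M0
  rw [← hm, abs_le]
  constructor <;> nlinarith

end X112.SQ
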