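import Pool.Agent.X112.SQ.C3

set_option autoImplicit false

noncomputable section

namespace X112.SQ

open Finset

theorem W_lower (n r : ℕ) (h1 : r * r ≤ n) : n / 2 * H r ≤ W n := by
  have h0 : r ≤ n := by nlinarith
  have h2 : (n : ℝ) / 2 * H n ≤ W n := by
    rw [W_eq, H_Ioc, Finset.mul_sum]
    refine Finset.sum_le_sum fun u hu => ?_
    have hu' := Finset.mem_Ioc.1 hu
    have hu0 : (0 : ℝ) < u := by exact_mod_cast hu'.1
    have h3 : 1 ≤ n / u := (Nat.le_div_iff_mul_le hu'.1).2 (by omega)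
    have h4 := (Nat.lt_div_mul_add hu'.1 (a := n)).le
    have h5 : ((n : ℕ) : ℝ) ≤ ((n / u * u + u : ℕ) : ℝ) := by exact_mod_cast h4
    rw [Nat.cast_add, Nat.cast_mul] at h5
    have h6 : (1 : ℝ) ≤ ((n / u : ℕ) : ℝ) := by exact_mod_cast h3
    rw [div_mul_eq_mul_div, ← div_eq_mul_inv, div_div, div_le_iff₀ (by positivity)]
    nlinarith
  refine le_trans ?_ h2
  have := H_mono h0
  gcongr

theorem D_le (n : ℕ) (θ : ℝ) : ‖D n θ‖ ≤ W n := by
  unfold D W
  refine (norm_sum_le _ _).trans (Finset.sum_le_sum fun k _ => ?_)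
  rw [norm_mul, ee_norm, mul_one]
  simp

theorem D_sub_le (n m : ℕ) (h : n ≤ m) (θ : ℝ) : ‖D m θ - D n θ‖ ≤ W m - W n := by
  unfold D W
  rw [← Finset.sum_Ioc_consecutive _ (Nat.zero_le n) h, add_sub_cancel_left,
    ← Finset.sum_Ioc_consecutive (fun k => ((Nat.divisors k).card : ℝ)) (Nat.zero_le n) h,
    add_sub_cancel_left]
  refine (norm_sum_le _ _).trans (Finset.sum_le_sum fun k _ => ?_)
  rw [norm_mul, ee_norm, mul_one]
  simp

/-- multiplier of the weighted average -/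
def av (θ : ℝ) (n : ℕ) : ℂ := D n θ / W n

theorem av_diff (θ : ℝ) (n m : ℕ) (hn : 1 ≤ n) (h : n ≤ m) :
    ‖av θ m - av θ n‖ ≤ 2 * (W m - W n) / W m := by
  have hm0 := W_pos m (by omega)
  have hn0 := W_pos n hn
  have hm1 : (W m : ℂ) ≠ 0 := by exact_mod_cast hm0.ne'
  have hn1 : (W n : ℂ) ≠ 0 := by exact_mod_cast hn0.ne'
  have hWm : W n ≤ W m := monotone_nat_of_le_succ W_mono h
  have e1 : av θ m - av θ n = (D m θ - D n θ) / W m -
      D n θ / W n * (((W m - W n : ℝ) : ℂ) / W m) := by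
    unfold av
    push_cast
    field_simp
    ring
  rw [e1]
  refine (norm_sub_le _ _).trans ?_
  have e2 : ‖(D m θ - D n θ) / (W m : ℂ)‖ ≤ (W m - W n) / W m := by
    rw [norm_div, Complex.norm_real, Real.norm_of_nonneg hm0.le]
    have := D_sub_le n m h θ
    gcongr
  have e3 : ‖D n θ / (W n : ℂ) * (((W m - W n : ℝ) : ℂ) / W m)‖ ≤ (W m - W n) / W m := by
    rw [norm_mul, norm_div, norm_div, Complex.norm_real, Complex.norm_real, Complex.norm_real,
      Real.norm_of_nonneg hm0.le, Real.norm_of_nonneg hn0.le,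
      Real.norm_of_nonneg (by linarith : (0 : ℝ) ≤ W m - W n)]
    have h1 : ‖D n θ‖ / W n ≤ 1 := by
      rw [div_le_one hn0]
      exact D_le n θ
    have h2 : 0 ≤ (W m - W n) / W m := div_nonneg (by linarith) hm0.le
    nlinarith
  have : 2 * (W m - W n) / W m = (W m - W n) / W m + (W m - W n) / W m := by ring
  linarith

/-- approximate value -/
def F (q r : ℕ) : ℝ := (1 - 2 * Real.log q / (2 * H r - 1)) / q

theorem log_le_self (q : ℕ) (hq : 0 < q) : Real.log q ≤ q := by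
  have hq0 : (0 : ℝ) < q := by exact_mod_cast hq
  have := Real.log_le_sub_one_of_pos hq0
  linarith

theorem good1 (p : ℤ) (q : ℕ) (hq : 0 < q) (hpq : IsUnit (p : ZMod q)) (θ : ℝ) (n r : ℕ)
    (h1 : r * r ≤ n) (h2 : n < (r + 1) * (r + 1))
    (hβ : |θ - p / q| * r ≤ 1 / (2 * q)) (hqr : q ≤ r) :
    ‖av θ n - F q r‖ ≤ 344 * (r / n) + 38 * |θ - p / q| * n / q := by
  have hq0 : (0 : ℝ) < q := by exact_mod_cast hq
  have hq1 : (1 : ℝ) ≤ q := by exact_mod_cast hq
  have hr1 : 1 ≤ r := by omega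
  have hr0 : (0 : ℝ) < r := by exact_mod_cast hr1
  have hqr' : (q : ℝ) ≤ r := by exact_mod_cast hqr
  have hn : 1 ≤ n := by nlinarith
  have hn0 : (0 : ℝ) < n := by exact_mod_cast hn
  have hW0 := W_pos n hn
  have hW1 : (W n : ℂ) ≠ 0 := by exact_mod_cast hW0.ne'
  have hH := H_one_le r hr1
  have hHq := H_mono hqr
  have hHq0 := H_nonneg q
  set β := θ - p / q with hβd
  have a1 := D_main p q hq hpq θ n r h1 h2 hβ
  rw [← hβd] at a1
  have a2 := M_sub n r q hq h1 β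
  rw [M_zero] at a2
  have a3 := M0_approx n r q hq hqr h1 h2
  have a4 := M0_approx n r 1 one_pos hr1 h1 h2
  rw [← W_M0 n r h1 h2] at a4
  simp only [Nat.cast_one, div_one, Real.log_one, mul_zero, sub_zero] at a4
  set L := 2 * H r - 1 with hL
  have hL1 : 1 ≤ L := by linarith
  have hlog0 : 0 ≤ Real.log q := Real.log_nonneg hq1
  have hlog1 := log_le_self q hq
  have hF : |F q r| ≤ 3 := by
    unfold F
    rw [← hL, abs_div, abs_of_pos hq0, div_le_iff₀ hq0]
    have h3 : 0 ≤ 2 * Real.log q / L := by positivity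
    have h4 : 2 * Real.log q / L ≤ 2 * Real.log q := by
      rw [div_le_iff₀ (by linarith)]
      nlinarith
    rw [abs_le]
    constructor <;> nlinarith
  have hFL : F q r * (n * L) = n / q * (2 * H r - 1 - 2 * Real.log q) := by
    unfold F
    rw [← hL]
    field_simp
  have e1 : av θ n - F q r = (D n θ - F q r * W n) / W n := by
    unfold av
    field_simp
  have e2 : D n θ - (F q r : ℂ) * W n = (D n θ - M n r q β) + (M n r q β - M0 n r q) +
      ((M0 n r q - n / q * (2 * H r - 1 - 2 * Real.log q) : ℝ) : ℂ) -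
      ((F q r * (W n - n * L) : ℝ) : ℂ) := by
    have : n / q * (2 * H r - 1 - 2 * Real.log q) = F q r * (n * L) := hFL.symm
    rw [this]
    push_cast
    ring
  have e3 : ‖D n θ - (F q r : ℂ) * W n‖ ≤ 6 * (r + q) * H q +
      3 * (2 * Real.pi * |β| * n ^ 2 / q) * H r + 40 * r + 3 * (40 * r) := by
    rw [e2]
    refine (norm_sub_le _ _).trans ?_
    have b1 := norm_add_le ((D n θ - M n r q β) + (M n r q β - M0 n r q))
      ((M0 n r q - n / q * (2 * H r - 1 - 2 * Real.log q) : ℝ) : ℂ)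
    have b2 := norm_add_le (D n θ - M n r q β) (M n r q β - M0 n r q)
    have b3 : ‖((M0 n r q - n / q * (2 * H r - 1 - 2 * Real.log q) : ℝ) : ℂ)‖ ≤ 40 * r := by
      rw [Complex.norm_real]
      exact a3
    have b4 : ‖((F q r * (W n - n * L) : ℝ) : ℂ)‖ ≤ 3 * (40 * r) := by
      rw [Complex.norm_real, norm_mul]
      exact mul_le_mul hF a4 (norm_nonneg _) (by norm_num)
    linarith
  have e4 : 6 * (r + q) * H q + 3 * (2 * Real.pi * |β| * n ^ 2 / q) * H r + 40 * r +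
      3 * (40 * r) ≤ (344 * (r / n) + 38 * |β| * n / q) * (n / 2 * H r) := by
    have c1 : (344 * (r / n) + 38 * |β| * n / q) * (n / 2 * H r) =
        172 * r * H r + 19 * (|β| * n ^ 2 / q) * H r := by
      field_simp
      ring
    rw [c1]
    have c2 : 3 * (2 * Real.pi * |β| * n ^ 2 / q) * H r =
        6 * Real.pi * (|β| * n ^ 2 / q) * H r := by ring
    rw [c2]
    have c3 : 6 * Real.pi ≤ 19 := by linarith [Real.pi_lt_d2]
    have c4 : 0 ≤ (|β| * (n : ℝ) ^ 2 / q) * H r := by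
      have := H_nonneg r
      positivity
    have c5 : 6 * ((r : ℝ) + q) * H q ≤ 6 * (r + r) * H r := by gcongr
    have c6 : (r : ℝ) ≤ r * H r := by nlinarith
    nlinarith
  rw [e1, norm_div, Complex.norm_real, Real.norm_of_nonneg hW0.le, div_le_iff₀ hW0]
  have e5 := W_lower n r h1
  have e6 : 0 ≤ 344 * ((r : ℝ) / n) + 38 * |β| * n / q := by positivity
  have e7 := mul_le_mul_of_nonneg_left e5 e6
  linarith

theorem good2 (p : ℤ) (q : ℕ) (hq : 0 < q) (hpq : IsUnit (p : ZMod q)) (θ : ℝ) (n r : ℕ)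
    (h1 : r * r ≤ n) (h2 : n < (r + 1) * (r + 1))
    (hβ : |θ - p / q| * r ≤ 1 / (2 * q)) (hqr : q ≤ r) (hβ0 : θ - p / q ≠ 0) :
    ‖av θ n‖ ≤ 24 * (r / n) + 3 * (|θ - p / q| * n)⁻¹ / q := by
  have hq0 : (0 : ℝ) < q := by exact_mod_cast hq
  have hq1 : (1 : ℝ) ≤ q := by exact_mod_cast hq
  have hr1 : 1 ≤ r := by omega
  have hr0 : (0 : ℝ) < r := by exact_mod_cast hr1
  have hqr' : (q : ℝ) ≤ r := by exact_mod_cast hqr
  have hn : 1 ≤ n := by nlinarith
  have hn0 : (0 : ℝ) < n := by exact_mod_cast hn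
  have hW0 := W_pos n hn
  have hH := H_one_le r hr1
  have hHq := H_mono hqr
  have hHq0 := H_nonneg q
  have a1 := D_main p q hq hpq θ n r h1 h2 hβ
  have hb : |θ - p / q| * r ≤ 1 / 2 := by
    refine hβ.trans ?_
    gcongr
    linarith
  have a2 := M_le' n r q hq h1 (θ - p / q) hb hβ0
  set β := θ - p / q with hβd
  have hb0 : 0 < |β| := abs_pos.2 hβ0
  have e3 : ‖D n θ‖ ≤ 6 * (r + q) * H q + 3 * (1 / (2 * q * |β|)) * H r := by
    have := norm_add_le (D n θ - M n r q β) (M n r q β)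
    rw [sub_add_cancel] at this
    linarith
  have e4 : 6 * (r + q) * H q + 3 * (1 / (2 * q * |β|)) * H r ≤
      (24 * (r / n) + 3 * (|β| * n)⁻¹ / q) * (n / 2 * H r) := by
    have c1 : (24 * (r / n) + 3 * (|β| * n)⁻¹ / q) * (n / 2 * H r) =
        12 * r * H r + 3 * (1 / (2 * q * |β|)) * H r := by
      field_simp
      ring
    rw [c1]
    have c5 : 6 * ((r : ℝ) + q) * H q ≤ 6 * (r + r) * H r := by gcongr
    linarith
  unfold av
  rw [norm_div, Complex.norm_real, Real.norm_of_nonneg hW0.le, div_le_iff₀ hW0]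
  have e5 := W_lower n r h1
  have e6 : 0 ≤ 24 * ((r : ℝ) / n) + 3 * (|β| * n)⁻¹ / q := by positivity
  have e7 := mul_le_mul_of_nonneg_left e5 e6
  linarith

theorem bad1 (p : ℤ) (q : ℕ) (hq : 0 < q) (hpq : IsUnit (p : ZMod q)) (θ : ℝ) (n r : ℕ)
    (h1 : r * r ≤ n) (h2 : n < (r + 1) * (r + 1)) (hr1 : 1 ≤ r)
    (hβ : |θ - p / q| * r ≤ 1 / (2 * q)) (hHq : H q ≤ 7 * H r) :
    ‖av θ n‖ ≤ 84 * ((r + q) / n) + 6 / q := by
  have hq0 : (0 : ℝ) < q := by exact_mod_cast hq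
  have hq1 : (1 : ℝ) ≤ q := by exact_mod_cast hq
  have hr0 : (0 : ℝ) < r := by exact_mod_cast hr1
  have hn : 1 ≤ n := by nlinarith
  have hn0 : (0 : ℝ) < n := by exact_mod_cast hn
  have hW0 := W_pos n hn
  have hH := H_one_le r hr1
  have hHq0 := H_nonneg q
  have a1 := D_main p q hq hpq θ n r h1 h2 hβ
  have a2 := M_le n r q hq h1 (θ - p / q)
  set β := θ - p / q with hβd
  have e3 : ‖D n θ‖ ≤ 6 * (r + q) * H q + 3 * (n / q) * H r := by
    have := norm_add_le (D n θ - M n r q β) (M n r q β)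
    rw [sub_add_cancel] at this
    linarith
  have e4 : 6 * (r + q) * H q + 3 * (n / q) * H r ≤
      (84 * ((r + q) / n) + 6 / q) * (n / 2 * H r) := by
    have c1 : (84 * (((r : ℝ) + q) / n) + 6 / q) * (n / 2 * H r) =
        6 * (r + q) * (7 * H r) + 3 * (n / q) * H r := by
      field_simp
      ring
    rw [c1]
    gcongr
  unfold av
  rw [norm_div, Complex.norm_real, Real.norm_of_nonneg hW0.le, div_le_iff₀ hW0]
  have e5 := W_lower n r h1
  have e6 : 0 ≤ 84 * (((r : ℝ) + q) / n) + 6 / q := by positivity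
  have e7 := mul_le_mul_of_nonneg_left e5 e6
  linarith

theorem H_diff (r r' c : ℕ) (h : r' ≤ c * (r + 1)) : H r' ≤ H r + c := by
  rcases le_total r' r with hr | hr
  · have := H_mono hr
    have : (0 : ℝ) ≤ c := Nat.cast_nonneg c
    linarith
  · have e1 : H r' - H r = ∑ i ∈ Ico r r', ((i : ℝ) + 1)⁻¹ := by
      unfold H
      rw [Finset.sum_Ico_eq_sub _ hr]
    have e2 : ∑ i ∈ Ico r r', ((i : ℝ) + 1)⁻¹ ≤ ∑ i ∈ Ico r r', ((r : ℝ) + 1)⁻¹ := by
      refine Finset.sum_le_sum fun i hi => ?_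
      have hi' := (Finset.mem_Ico.1 hi).1
      have : (r : ℝ) ≤ i := by exact_mod_cast hi'
      gcongr
    rw [Finset.sum_const, Nat.card_Ico, nsmul_eq_mul, ← div_eq_mul_inv] at e2
    have e3 : ((r' - r : ℕ) : ℝ) / (r + 1) ≤ c := by
      rw [div_le_iff₀ (by positivity)]
      have : r' - r ≤ c * (r + 1) := by omega
      exact_mod_cast this
    linarith

theorem H_lower (n r s : ℕ) (hr1 : 1 ≤ r) (h2 : n < (r + 1) * (r + 1)) (hs : 2 ^ s ≤ n) :
    (1 + s : ℝ) / 4 ≤ H r := by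
  have h1 := H_one_le r hr1
  rcases le_or_gt s 3 with h | h
  · have : (s : ℝ) ≤ 3 := by exact_mod_cast h
    linarith
  · have h3 : (4 : ℝ) ≤ s := by exact_mod_cast h
    have h4 := log_add_one_le_harmonic r
    rw [← H_eq] at h4
    have h5 : (2 : ℝ) ^ s ≤ (r + 1) ^ 2 := by
      have : 2 ^ s ≤ (r + 1) ^ 2 := by nlinarith
      exact_mod_cast this
    have h6 := Real.log_le_log (by positivity) h5
    rw [Real.log_pow, Real.log_pow] at h6
    have h7 := Real.log_two_gt_d9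
    push_cast at h4 h6
    nlinarith

theorem F_osc (q r r' s : ℕ) (hq : 0 < q) (h1 : 1 ≤ H r) (h1' : 1 ≤ H r')
    (h2 : (1 + s : ℝ) / 4 ≤ H r) (h2' : (1 + s : ℝ) / 4 ≤ H r') (h3 : |H r - H r'| ≤ 2) :
    |F q r - F q r'| ≤ 128 * ((1 + s : ℝ) ^ 2)⁻¹ := by
  have hq0 : (0 : ℝ) < q := by exact_mod_cast hq
  have hq1 : (1 : ℝ) ≤ q := by exact_mod_cast hq
  have hlog0 : 0 ≤ Real.log q := Real.log_nonneg hq1
  have hlog1 := log_le_self q hq
  have hL : 0 < 2 * H r - 1 := by linarith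
  have hL' : 0 < 2 * H r' - 1 := by linarith
  have e1 : F q r - F q r' = Real.log q / q * (4 * (H r - H r')) /
      ((2 * H r - 1) * (2 * H r' - 1)) := by
    unfold F
    field_simp
    ring
  rw [e1, abs_div, abs_mul, abs_mul, abs_of_nonneg (by positivity : 0 ≤ Real.log q / q),
    abs_of_pos (mul_pos hL hL'), div_le_iff₀ (mul_pos hL hL')]
  have hs : (0 : ℝ) < 1 + s := by positivity
  have e2 : Real.log q / q ≤ 1 := by
    rw [div_le_one hq0]; exact hlog1
  have e3 : (1 + s : ℝ) ^ 2 / 16 ≤ (2 * H r - 1) * (2 * H r' - 1) := by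
    have : (1 + s : ℝ) ^ 2 / 16 = ((1 + s) / 4) * ((1 + s) / 4) := by ring
    rw [this]
    apply mul_le_mul <;> linarith
  have e4 : |(4 : ℝ)| = 4 := by norm_num
  rw [e4]
  calc Real.log q / q * (4 * |H r - H r'|) ≤ 1 * (4 * 2) := by gcongr
    _ = 128 * ((1 + s : ℝ) ^ 2)⁻¹ * ((1 + s : ℝ) ^ 2 / 16) := by field_simp; norm_num
    _ ≤ _ := by gcongr

end X112.SQ
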